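import Pool.Agent.Lib.MP_ceba03_an.Kraw

set_option autoImplicit false
set_option linter.unusedSectionVars false

open Finset

namespace Pool.Agent.Lib.MP_ceba03_an

variable {ι : Type*} [Fintype ι] [DecidableEq ι]

/-- Product measure weights. -/
noncomputable def wt (c : ι → ℝ) (J : Finset ι) : ℝ :=
  (∏ j ∈ J, ((1 - c j) / 2)) * ∏ j ∈ univ \ J, ((1 + c j) / 2)

lemma wt_nonneg (c : ι → ℝ) (hc : ∀ j, |c j| ≤ 1) (J : Finset ι) : 0 ≤ wt c J := by
  unfold wt
  apply mul_nonneg
  · apply prod_nonneg; intro j _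
    have := abs_le.mp (hc j); linarith
  · apply prod_nonneg; intro j _
    have := abs_le.mp (hc j); linarith

lemma prod_eq_sum_wt (c : ι → ℝ) (E : Finset ι) :
    ∏ j ∈ E, c j = ∑ J : Finset ι, wt c J * ∏ j ∈ E, sg J j := by
  have h1 : ∏ j ∈ E, c j = ∏ j : ι, ((if j ∈ E then -((1 - c j) / 2) else (1 - c j) / 2) +
      (1 + c j) / 2) := by
    rw [← Fintype.prod_ite_mem E c]
    apply prod_congr rfl
    intro j _
    split_ifs <;> ring
  rw [h1, prod_add, powerset_univ]
  apply sum_congr rfl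
  intro J _
  rw [prod_sg_comm E J]
  unfold wt
  have h2 : ∏ j ∈ J, (if j ∈ E then -((1 - c j) / 2) else (1 - c j) / 2) =
      (∏ j ∈ J, ((1 - c j) / 2)) * ∏ j ∈ J, sg E j := by
    rw [← prod_mul_distrib]
    apply prod_congr rfl
    intro j _
    unfold sg
    split_ifs <;> ring
  rw [h2]
  ring

lemma sum_wt (c : ι → ℝ) : ∑ J : Finset ι, wt c J = 1 := by
  have := prod_eq_sum_wt c ∅
  simpa using this.symm

/-- A multi-affine function on the cube is bounded by its values at the vertices. -/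
lemma multiaffine_bound (b : Finset ι → ℝ) (K : ℝ)
    (hK : ∀ J : Finset ι, |∑ E : Finset ι, b E * ∏ j ∈ E, sg J j| ≤ K)
    (c : ι → ℝ) (hc : ∀ j, |c j| ≤ 1) :
    |∑ E : Finset ι, b E * ∏ j ∈ E, c j| ≤ K := by
  have h1 : ∑ E : Finset ι, b E * ∏ j ∈ E, c j =
      ∑ J : Finset ι, wt c J * ∑ E : Finset ι, b E * ∏ j ∈ E, sg J j := by
    simp_rw [prod_eq_sum_wt c, mul_sum]
    rw [sum_comm]
    apply sum_congr rfl; intro J _
    apply sum_congr rfl; intro E _
    ring
  rw [h1]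
  calc |∑ J : Finset ι, wt c J * ∑ E : Finset ι, b E * ∏ j ∈ E, sg J j|
      ≤ ∑ J : Finset ι, |wt c J * ∑ E : Finset ι, b E * ∏ j ∈ E, sg J j| := abs_sum_le_sum_abs _ _
    _ ≤ ∑ J : Finset ι, wt c J * K := by
        apply sum_le_sum; intro J _
        rw [abs_mul, abs_of_nonneg (wt_nonneg c hc J)]
        exact mul_le_mul_of_nonneg_left (hK J) (wt_nonneg c hc J)
    _ = K := by rw [← sum_mul, sum_wt, one_mul]

/-! ### Sampling -/

section sampling

variable {α κ : Type*} [DecidableEq α] [Fintype κ]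

/-- The exponential potential. -/
noncomputable def pot (χ : κ → α → ℝ) (M : κ → ℝ) (lam : ℝ) (Y : Finset α) : ℝ :=
  ∑ k : κ, (Real.exp (lam * (∑ x ∈ Y, χ k x - Y.card * M k)) +
    Real.exp (-(lam * (∑ x ∈ Y, χ k x - Y.card * M k))))

lemma exp_le_quad (y : ℝ) (hy : |y| ≤ 1) : Real.exp y ≤ 1 + y + y ^ 2 := by
  have := Real.abs_exp_sub_one_sub_id_le hy
  have := abs_le.mp this
  linarith

/-- One step of the sampling. -/
lemma step_bound (X : Finset α) (χ : α → ℝ) (hχ : ∀ x, |χ x| ≤ 1) (M lam : ℝ)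
    (hM : (X.card : ℝ) * M = ∑ x ∈ X, χ x) (hX : X.Nonempty) (hl : |lam| ≤ 1 / 2) :
    ∑ x ∈ X, Real.exp (lam * (χ x - M)) ≤ X.card * Real.exp (4 * lam ^ 2) := by
  have hXc : (0 : ℝ) < X.card := by exact_mod_cast hX.card_pos
  have hMle : |M| ≤ 1 := by
    have h1 : |(X.card : ℝ) * M| ≤ X.card := by
      rw [hM]
      calc |∑ x ∈ X, χ x| ≤ ∑ x ∈ X, |χ x| := abs_sum_le_sum_abs _ _
        _ ≤ ∑ x ∈ X, (1 : ℝ) := sum_le_sum (fun x _ => hχ x)
        _ = X.card := by simp
    rw [abs_mul, abs_of_pos hXc] at h1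
    have h2 : (X.card : ℝ) * |M| ≤ X.card * 1 := by linarith
    exact le_of_mul_le_mul_left h2 hXc
  have hdiff : ∀ x, |χ x - M| ≤ 2 := by
    intro x
    calc |χ x - M| ≤ |χ x| + |M| := abs_sub _ _
      _ ≤ 2 := by linarith [hχ x]
  have h1 : ∀ x ∈ X, Real.exp (lam * (χ x - M)) ≤ 1 + lam * (χ x - M) + 4 * lam ^ 2 := by
    intro x _
    have h2 : |lam * (χ x - M)| ≤ 1 := by
      rw [abs_mul]
      calc |lam| * |χ x - M| ≤ 1 / 2 * 2 :=
            mul_le_mul hl (hdiff x) (abs_nonneg _) (by norm_num)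
        _ = 1 := by norm_num
    have h3 := exp_le_quad _ h2
    have h4 : (lam * (χ x - M)) ^ 2 ≤ 4 * lam ^ 2 := by
      have h5 : (χ x - M) ^ 2 ≤ 4 := by
        have := abs_le.mp (hdiff x)
        nlinarith
      rw [mul_pow]
      nlinarith [sq_nonneg lam]
    linarith
  calc ∑ x ∈ X, Real.exp (lam * (χ x - M)) ≤ ∑ x ∈ X, (1 + lam * (χ x - M) + 4 * lam ^ 2) :=
        sum_le_sum h1
    _ = X.card * (1 + 4 * lam ^ 2) + lam * (∑ x ∈ X, χ x - X.card * M) := by
        rw [sum_add_distrib, sum_add_distrib, ← mul_sum, sum_sub_distrib]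
        simp only [sum_const, nsmul_eq_mul]
        ring
    _ = X.card * (1 + 4 * lam ^ 2) := by rw [hM]; ring
    _ ≤ X.card * Real.exp (4 * lam ^ 2) := by
        apply mul_le_mul_of_nonneg_left _ hXc.le
        have := Real.add_one_le_exp (4 * lam ^ 2)
        linarith

lemma exists_insert (X : Finset α) (χ : κ → α → ℝ) (hχ : ∀ k x, |χ k x| ≤ 1) (M : κ → ℝ)
    (hM : ∀ k, (X.card : ℝ) * M k = ∑ x ∈ X, χ k x) (lam : ℝ) (hl : |lam| ≤ 1 / 2)
    (Y : Finset α) (hY : Y ⊆ X) (hc : Y.card < X.card) :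
    ∃ x ∈ X \ Y, pot χ M lam (insert x Y) ≤
      pot χ M lam Y * (Real.exp (4 * lam ^ 2) * (X.card / ((X.card : ℝ) - Y.card))) := by
  have hne : (X \ Y).Nonempty := by
    rw [← card_pos, card_sdiff_of_subset hY]; omega
  have hcard : (((X \ Y).card : ℕ) : ℝ) = (X.card : ℝ) - Y.card := by
    rw [card_sdiff_of_subset hY, Nat.cast_sub (card_le_card hY)]
  have hpos : (0 : ℝ) < (X.card : ℝ) - Y.card := by
    rw [← hcard]; exact_mod_cast hne.card_pos
  have hX : X.Nonempty := by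
    obtain ⟨x, hx⟩ := hne
    exact ⟨x, (mem_sdiff.mp hx).1⟩
  -- sum over all choices
  have hsum : ∑ x ∈ X \ Y, pot χ M lam (insert x Y) ≤
      (pot χ M lam Y) * (X.card * Real.exp (4 * lam ^ 2)) := by
    have h1 : ∀ x ∈ X \ Y, pot χ M lam (insert x Y) =
        ∑ k : κ, (Real.exp (lam * (∑ x ∈ Y, χ k x - Y.card * M k)) *
          Real.exp (lam * (χ k x - M k)) +
          Real.exp (-(lam * (∑ x ∈ Y, χ k x - Y.card * M k))) *
          Real.exp ((-lam) * (χ k x - M k))) := by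
      intro x hx
      have hx' : x ∉ Y := (mem_sdiff.mp hx).2
      unfold pot
      apply sum_congr rfl
      intro k _
      rw [← Real.exp_add, ← Real.exp_add, sum_insert hx', card_insert_of_notMem hx']
      congr 2
      · push_cast; ring
      · push_cast; ring
    rw [sum_congr rfl h1, sum_comm]
    unfold pot
    rw [sum_mul]
    apply sum_le_sum
    intro k _
    rw [sum_add_distrib, ← mul_sum, ← mul_sum, add_mul]
    have h2 : ∑ x ∈ X \ Y, Real.exp (lam * (χ k x - M k)) ≤ X.card * Real.exp (4 * lam ^ 2) :=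
      (sum_le_sum_of_subset_of_nonneg sdiff_subset (fun _ _ _ => (Real.exp_pos _).le)).trans
        (step_bound X (χ k) (hχ k) (M k) lam (hM k) hX hl)
    have h3 : ∑ x ∈ X \ Y, Real.exp ((-lam) * (χ k x - M k)) ≤
        X.card * Real.exp (4 * lam ^ 2) := by
      have := step_bound X (χ k) (hχ k) (M k) (-lam) (hM k) hX (by rwa [abs_neg])
      rw [neg_sq] at this
      exact (sum_le_sum_of_subset_of_nonneg sdiff_subset (fun _ _ _ => (Real.exp_pos _).le)).trans
        this
    exact add_le_add (mul_le_mul_of_nonneg_left h2 (Real.exp_pos _).le)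
      (mul_le_mul_of_nonneg_left h3 (Real.exp_pos _).le)
  by_contra hcon
  push Not at hcon
  have h4 : ∑ x ∈ X \ Y, pot χ M lam Y *
      (Real.exp (4 * lam ^ 2) * (X.card / ((X.card : ℝ) - Y.card))) <
      ∑ x ∈ X \ Y, pot χ M lam (insert x Y) := sum_lt_sum_of_nonempty hne hcon
  rw [sum_const, nsmul_eq_mul, hcard] at h4
  have h5 : ((X.card : ℝ) - Y.card) * (pot χ M lam Y *
      (Real.exp (4 * lam ^ 2) * (X.card / ((X.card : ℝ) - Y.card)))) =
      (pot χ M lam Y) * (X.card * Real.exp (4 * lam ^ 2)) := by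
    field_simp
  rw [h5] at h4
  exact absurd hsum (not_le.mpr h4)

lemma pot_nonneg (χ : κ → α → ℝ) (M : κ → ℝ) (lam : ℝ) (Y : Finset α) : 0 ≤ pot χ M lam Y := by
  unfold pot
  apply sum_nonneg; intro k _
  positivity

/-- Existence of a good sample of any size. -/
lemma exists_sample (X : Finset α) (χ : κ → α → ℝ) (hχ : ∀ k x, |χ k x| ≤ 1) (M : κ → ℝ)
    (hM : ∀ k, (X.card : ℝ) * M k = ∑ x ∈ X, χ k x) (lam : ℝ) (hl : |lam| ≤ 1 / 2)
    (N : ℕ) (hN : 2 * N ≤ X.card) (hN0 : 0 < X.card) :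
    ∀ n, n ≤ N → ∃ Y ⊆ X, Y.card = n ∧ pot χ M lam Y ≤
      2 * (Fintype.card κ) * Real.exp (n * (4 * lam ^ 2 + 2 * N / X.card)) := by
  intro n
  induction n with
  | zero =>
    intro _
    refine ⟨∅, empty_subset _, card_empty, ?_⟩
    unfold pot
    simp
    linarith
  | succ n ih =>
    intro hn
    obtain ⟨Y, hYX, hYc, hYp⟩ := ih (by omega)
    have hlt : Y.card < X.card := by omega
    obtain ⟨x, hx, hp⟩ := exists_insert X χ hχ M hM lam hl Y hYX hlt
    have hx' := mem_sdiff.mp hx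
    refine ⟨insert x Y, insert_subset hx'.1 hYX, ?_, ?_⟩
    · rw [card_insert_of_notMem hx'.2, hYc]
    · refine hp.trans ?_
      have hXpos : (0 : ℝ) < X.card := by exact_mod_cast hN0
      have hnN : (n : ℝ) ≤ N := by exact_mod_cast (by omega : n ≤ N)
      have h2N : 2 * (N : ℝ) ≤ X.card := by exact_mod_cast hN
      have hsub : (0 : ℝ) < (X.card : ℝ) - Y.card := by
        rw [hYc]
        have : (n : ℝ) < X.card := by exact_mod_cast (by omega : n < X.card)
        linarith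
      have h1 : (X.card : ℝ) / ((X.card : ℝ) - Y.card) ≤ Real.exp (2 * N / X.card) := by
        have h2 : (X.card : ℝ) / ((X.card : ℝ) - Y.card) ≤ 1 + 2 * N / X.card := by
          rw [div_le_iff₀ hsub, hYc]
          have h3 : (1 + 2 * (N : ℝ) / X.card) * ((X.card : ℝ) - n) =
              X.card - n + 2 * N - 2 * N * n / X.card := by
            field_simp
            ring
          rw [h3]
          have h4 : 2 * (N : ℝ) * n / X.card ≤ n := by
            rw [div_le_iff₀ hXpos]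
            nlinarith [Nat.cast_nonneg (α := ℝ) n]
          linarith
        have h5 := Real.add_one_le_exp (2 * (N : ℝ) / X.card)
        linarith
      calc pot χ M lam Y * (Real.exp (4 * lam ^ 2) * (X.card / ((X.card : ℝ) - Y.card)))
          ≤ (2 * (Fintype.card κ) * Real.exp (n * (4 * lam ^ 2 + 2 * N / X.card))) *
            (Real.exp (4 * lam ^ 2) * Real.exp (2 * N / X.card)) := by
            apply mul_le_mul hYp
            · exact mul_le_mul_of_nonneg_left h1 (Real.exp_pos _).le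
            · positivity
            · positivity
        _ = 2 * (Fintype.card κ) * Real.exp ((n + 1 : ℕ) * (4 * lam ^ 2 + 2 * N / X.card)) := by
            rw [mul_assoc, ← Real.exp_add, ← Real.exp_add]
            congr 2
            push_cast
            ring

/-- The sampling lemma. -/
lemma sampling (X : Finset α) (χ : κ → α → ℝ) (hχ : ∀ k x, |χ k x| ≤ 1)
    (δ : ℝ) (hδ : 0 < δ) (hδ1 : δ ≤ 1) (N : ℕ) (hNpos : 0 < N)
    (hN1 : 64 * Real.log (2 * Fintype.card κ) ≤ δ ^ 2 * N)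
    (hN2 : 128 * (N : ℝ) ≤ δ ^ 2 * X.card) :
    ∃ Y ⊆ X, Y.card = N ∧ ∀ k, |(∑ x ∈ Y, χ k x) / N - (∑ x ∈ X, χ k x) / X.card| ≤ δ := by
  have hNr : (0 : ℝ) < N := by exact_mod_cast hNpos
  have hδ2 : δ ^ 2 ≤ 1 := by nlinarith
  have hXr : (0 : ℝ) < X.card := by
    by_contra h
    have h0 : (X.card : ℝ) ≤ 0 := not_lt.mp h
    have h1 : δ ^ 2 * (X.card : ℝ) ≤ 0 := mul_nonpos_of_nonneg_of_nonpos (by positivity) h0
    linarith
  have h2N : 2 * N ≤ X.card := by
    have h1 : δ ^ 2 * (X.card : ℝ) ≤ 1 * X.card := mul_le_mul_of_nonneg_right hδ2 hXr.le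
    have h2 : 2 * (N : ℝ) ≤ X.card := by linarith
    exact_mod_cast h2
  have hX0 : 0 < X.card := by exact_mod_cast hXr
  set M : κ → ℝ := fun k => (∑ x ∈ X, χ k x) / X.card with hMdef
  have hM : ∀ k, (X.card : ℝ) * M k = ∑ x ∈ X, χ k x := by
    intro k
    simp only [hMdef]
    field_simp
  obtain ⟨Y, hYX, hYc, hYp⟩ := exists_sample X χ hχ M hM (δ / 16)
    (by rw [abs_of_pos (by positivity)]; linarith) N h2N hX0 N le_rfl
  refine ⟨Y, hYX, hYc, fun k => ?_⟩
  set S := ∑ x ∈ Y, χ k x - Y.card * M k with hS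
  -- the exponential of the absolute value is at most the potential
  have h1 : Real.exp (δ / 16 * |S|) ≤ pot χ M (δ / 16) Y := by
    have h2 : Real.exp (δ / 16 * |S|) ≤ Real.exp (δ / 16 * S) + Real.exp (-(δ / 16 * S)) := by
      rcases abs_cases S with ⟨h, _⟩ | ⟨h, _⟩
      · rw [h]; linarith [Real.exp_pos (-(δ / 16 * S))]
      · rw [h]
        have : δ / 16 * -S = -(δ / 16 * S) := by ring
        rw [this]; linarith [Real.exp_pos (δ / 16 * S)]
    refine h2.trans ?_
    unfold pot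
    exact single_le_sum (f := fun k : κ => (Real.exp (δ / 16 * (∑ x ∈ Y, χ k x - Y.card * M k)) +
      Real.exp (-(δ / 16 * (∑ x ∈ Y, χ k x - Y.card * M k)))))
      (fun i _ => by positivity) (mem_univ k)
  have hκ : (0 : ℝ) < 2 * Fintype.card κ := by
    have : 0 < Fintype.card κ := Fintype.card_pos_iff.mpr ⟨k⟩
    have : (0 : ℝ) < Fintype.card κ := by exact_mod_cast this
    linarith
  have h3 : δ / 16 * |S| ≤ Real.log (2 * Fintype.card κ) +
      N * (4 * (δ / 16) ^ 2 + 2 * N / X.card) := by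
    have h4 := h1.trans hYp
    rw [← Real.exp_log hκ, ← Real.exp_add] at h4
    exact Real.exp_le_exp.mp h4
  have h5 : (N : ℝ) / X.card ≤ δ ^ 2 / 128 := by
    rw [div_le_div_iff₀ hXr (by norm_num)]
    linarith
  have h6 : |S| ≤ δ * N := by
    have h7 : N * (4 * (δ / 16) ^ 2 + 2 * N / X.card) ≤ N * (δ ^ 2 / 64 + δ ^ 2 / 64) := by
      apply mul_le_mul_of_nonneg_left _ hNr.le
      have : 2 * (N : ℝ) / X.card = 2 * (N / X.card) := by ring
      rw [this]
      nlinarith
    have h8 : δ / 16 * |S| ≤ δ / 16 * (δ * N) := by nlinarith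
    exact le_of_mul_le_mul_left h8 (by positivity)
  have h9 : (∑ x ∈ Y, χ k x) / N - (∑ x ∈ X, χ k x) / X.card = S / N := by
    rw [hS, hYc]
    simp only [hMdef]
    field_simp
  rw [h9, abs_div, abs_of_pos hNr, div_le_iff₀ hNr]
  exact h6

end sampling

end Pool.Agent.Lib.MP_ceba03_an
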