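import Pool.Agent.Lib.MP_ceba03_an.Circle

set_option autoImplicit false

open MeasureTheory AddCircle

namespace Pool.Agent.Lib.MP_ceba03_an

/-- The data of one block: a trigonometric polynomial `F` with Fourier coefficients `η` at the
incoming frequencies `i j` and `η'` at the outgoing frequencies `o j`, and a real sequence `b`. -/
structure Block (η η' : ℝ) (N N' : ℕ) (α γ : ℝ) where
  H : ℕ
  F : C(UnitAddCircle, ℂ)
  b : ℤ → ℝ
  i : Fin N → ℤ
  o : Fin N' → ℤ
  inj : Function.Injective (Sum.elim i o)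
  i_le : ∀ j, |i j| ≤ H
  o_le : ∀ j, |o j| ≤ H
  F_supp : ∀ n : ℤ, (H : ℤ) < |n| → fourierCoeff F n = 0
  F_i : ∀ j, fourierCoeff F (i j) = (η : ℂ)
  F_o : ∀ j, fourierCoeff F (o j) = (η' : ℂ)
  b_i : ∀ j, b (i j) = -(1 / (η * N))
  b_o : ∀ j, b (o j) = 1 / (η' * N')
  b_zero : ∀ n, n ∉ Set.range i → n ∉ Set.range o → b n ≠ 0 → fourierCoeff F n = 0
  F_norm : ∫ x, ‖F x‖ ∂hm ≤ α
  G_norm : ∀ x : UnitAddCircle,
    ‖∑ n ∈ Finset.Icc (-(H : ℤ)) H, ((b n : ℝ) : ℂ) * fourier n x‖ ≤ γ

/-- A continuous function as an element of `L¹`. -/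
noncomputable def toL1 (φ : C(UnitAddCircle, ℂ)) : L1T := ContinuousMap.toLp 1 hm ℂ φ

lemma toL1_ae (φ : C(UnitAddCircle, ℂ)) : (toL1 φ : UnitAddCircle → ℂ) =ᵐ[hm] φ :=
  ContinuousMap.coeFn_toLp hm φ

lemma fourierCoeff_toL1 (φ : C(UnitAddCircle, ℂ)) (n : ℤ) :
    fourierCoeff (toL1 φ : UnitAddCircle → ℂ) n = fourierCoeff φ n := by
  rw [fourierCoeff_congr_ae (toL1_ae φ)]

lemma norm_toL1 (φ : C(UnitAddCircle, ℂ)) : ‖toL1 φ‖ = ∫ x, ‖φ x‖ ∂hm := by
  rw [L1.norm_eq_integral_norm]
  apply integral_congr_ae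
  filter_upwards [toL1_ae φ] with t ht
  rw [ht]

lemma fourierCoeff_shift (φ : C(UnitAddCircle, ℂ)) (c n : ℤ) :
    fourierCoeff ((fourier c * φ : C(UnitAddCircle, ℂ)) : UnitAddCircle → ℂ) n
      = fourierCoeff φ (n - c) := by
  unfold fourierCoeff
  congr 1
  ext t
  simp only [ContinuousMap.coe_mul, Pi.mul_apply, smul_eq_mul]
  rw [← mul_assoc, ← fourier_add]
  congr 3
  ring

section assembly

variable {η : ℕ → ℝ} {N : ℕ → ℕ} {α γ : ℕ → ℝ}
  (B : ∀ k, Block (η k) (η (k + 1)) (N k) (N (k + 1)) (α k) (γ k))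

/-- Left end of the window of block `k`. -/
noncomputable def wS : ℕ → ℕ
  | 0 => 0
  | (k + 1) => wS k + 2 * (B k).H + 2

/-- The centre of the window of block `k`. -/
noncomputable def cen (k : ℕ) : ℤ := (wS B k : ℤ) + (B k).H + 1

lemma wS_succ (k : ℕ) : wS B (k + 1) = wS B k + 2 * (B k).H + 2 := rfl

lemma wS_mono : Monotone (wS B) := by
  apply monotone_nat_of_le_succ
  intro k
  rw [wS_succ]; omega

lemma wS_ge (k : ℕ) : 2 * k ≤ wS B k := by
  induction k with
  | zero => simp
  | succ k ih => rw [wS_succ]; omega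

lemma window_disjoint {k l : ℕ} {n : ℤ} (hk : |n - cen B k| ≤ (B k).H)
    (hl : |n - cen B l| ≤ (B l).H) : k = l := by
  by_contra hne
  wlog hlt : k < l generalizing k l
  · exact this hl hk (Ne.symm hne) (lt_of_le_of_ne (not_lt.mp hlt) (Ne.symm hne))
  have h1 : wS B (k + 1) ≤ wS B l := wS_mono B hlt
  rw [wS_succ] at h1
  rw [abs_le] at hk hl
  unfold cen at hk hl
  omega

/-- The function of block `k`, moved to its window. -/
noncomputable def blockF (k : ℕ) : L1T := toL1 (fourier (cen B k) * (B k).F)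

lemma norm_blockF (k : ℕ) : ‖blockF B k‖ ≤ α k := by
  unfold blockF
  rw [norm_toL1]
  refine le_trans (le_of_eq ?_) (B k).F_norm
  apply integral_congr_ae
  refine Filter.Eventually.of_forall (fun x => ?_)
  simp only [ContinuousMap.coe_mul, Pi.mul_apply, norm_mul]
  have : ‖(fourier (cen B k) x : ℂ)‖ = 1 := by
    rw [fourier_apply]; exact Circle.norm_coe _
  rw [this, one_mul]

lemma coeff_blockF (k : ℕ) (n : ℤ) :
    fourierCoeff (blockF B k : UnitAddCircle → ℂ) n = fourierCoeff (B k).F (n - cen B k) := by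
  unfold blockF
  rw [fourierCoeff_toL1, fourierCoeff_shift]

/-- The function `f`. -/
noncomputable def bigF : L1T := ∑' k, blockF B k

variable (hα : Summable α)

include hα in
lemma summable_blockF : Summable (blockF B) :=
  Summable.of_norm_bounded hα (norm_blockF B)

include hα in
lemma coeff_bigF (k : ℕ) (n : ℤ) (hn : |n| ≤ (B k).H) :
    fourierCoeff (bigF B : UnitAddCircle → ℂ) (n + cen B k) = fourierCoeff (B k).F n := by
  rw [← coeffL_apply]
  have h1 := ((summable_blockF B hα).hasSum.mapL (coeffL (n + cen B k)))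
  have h2 : HasSum (fun l => coeffL (n + cen B k) (blockF B l)) (fourierCoeff (B k).F n) := by
    have h3 : (fourierCoeff (B k).F n : ℂ) = coeffL (n + cen B k) (blockF B k) := by
      rw [coeffL_apply, coeff_blockF, add_sub_cancel_right]
    rw [h3]
    apply hasSum_single
    intro l hl
    rw [coeffL_apply, coeff_blockF]
    apply (B l).F_supp
    by_contra hcon
    push Not at hcon
    apply hl
    exact (window_disjoint B (n := n + cen B k) (by rwa [add_sub_cancel_right]) hcon).symm
  exact h1.unique h2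

include hα in
lemma coeff_bigF_neg (n : ℤ) (hn : n < 0) :
    fourierCoeff (bigF B : UnitAddCircle → ℂ) n = 0 := by
  rw [← coeffL_apply]
  have h1 := ((summable_blockF B hα).hasSum.mapL (coeffL n))
  have h2 : HasSum (fun l => coeffL n (blockF B l)) 0 := by
    have : (fun l => coeffL n (blockF B l)) = fun _ => 0 := by
      funext l
      rw [coeffL_apply, coeff_blockF]
      apply (B l).F_supp
      unfold cen
      rw [abs_of_neg (by omega)]
      omega
    rw [this]
    exact hasSum_zero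
  exact h1.unique h2

/-- The outgoing frequency of a pair. -/
noncomputable def uu (p : Σ k : ℕ, Fin (N (k + 1))) : ℤ := (B p.1).o p.2 + cen B p.1

/-- The incoming frequency of a pair. -/
noncomputable def vv (p : Σ k : ℕ, Fin (N (k + 1))) : ℤ := (B (p.1 + 1)).i p.2 + cen B (p.1 + 1)

lemma uu_inj : Function.Injective (uu B) := by
  rintro ⟨k, j⟩ ⟨l, j'⟩ h
  unfold uu at h
  simp only at h
  have hk : k = l := by
    apply window_disjoint B (n := (B k).o j + cen B k)
    · rw [add_sub_cancel_right]; exact (B k).o_le j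
    · rw [h, add_sub_cancel_right]; exact (B l).o_le j'
  subst hk
  have h1 : (B k).o j = (B k).o j' := by linarith
  have h2 := (B k).inj (a₁ := Sum.inr j) (a₂ := Sum.inr j') h1
  rw [Sum.inr.inj h2]

lemma vv_inj : Function.Injective (vv B) := by
  rintro ⟨k, j⟩ ⟨l, j'⟩ h
  unfold vv at h
  simp only at h
  have hk : k + 1 = l + 1 := by
    apply window_disjoint B (n := (B (k + 1)).i j + cen B (k + 1))
    · rw [add_sub_cancel_right]; exact (B (k + 1)).i_le j
    · rw [h, add_sub_cancel_right]; exact (B (l + 1)).i_le j'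
  have hk' : k = l := by omega
  subst hk'
  have h1 : (B (k + 1)).i j = (B (k + 1)).i j' := by linarith
  have h2 := (B (k + 1)).inj (a₁ := Sum.inl j) (a₂ := Sum.inl j') h1
  rw [Sum.inl.inj h2]

lemma uu_ne_vv (p q : Σ k : ℕ, Fin (N (k + 1))) : uu B p ≠ vv B q := by
  obtain ⟨k, j⟩ := p
  obtain ⟨l, j'⟩ := q
  intro h
  unfold uu vv at h
  simp only at h
  have hk : k = l + 1 := by
    apply window_disjoint B (n := (B k).o j + cen B k)
    · rw [add_sub_cancel_right]; exact (B k).o_le j
    · rw [h, add_sub_cancel_right]; exact (B (l + 1)).i_le j'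
  subst hk
  have h1 : (B (l + 1)).o j = (B (l + 1)).i j' := by linarith
  have h2 := (B (l + 1)).inj (a₁ := Sum.inr j) (a₂ := Sum.inl j') h1
  cases h2

/-- The algebra. -/
noncomputable def alg : Submodule ℂ L1T where
  carrier := {g | (∀ n : ℤ, fourierCoeff (bigF B : UnitAddCircle → ℂ) n = 0 → coeffL n g = 0) ∧
    ∀ p : Σ k : ℕ, Fin (N (k + 1)), coeffL (uu B p) g = coeffL (vv B p) g}
  add_mem' := by
    rintro f g ⟨h1, h2⟩ ⟨h3, h4⟩
    refine ⟨fun n hn => ?_, fun p => ?_⟩
    · rw [map_add, h1 n hn, h3 n hn, add_zero]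
    · rw [map_add, map_add, h2, h4]
  zero_mem' := ⟨fun n _ => map_zero _, fun p => by rw [map_zero, map_zero]⟩
  smul_mem' := by
    rintro c g ⟨h1, h2⟩
    refine ⟨fun n hn => ?_, fun p => ?_⟩
    · rw [map_smul, h1 n hn, smul_zero]
    · rw [map_smul, map_smul, h2]

lemma mem_alg (g : L1T) : g ∈ alg B ↔
    (∀ n : ℤ, fourierCoeff (bigF B : UnitAddCircle → ℂ) n = 0 → coeffL n g = 0) ∧
    ∀ p : Σ k : ℕ, Fin (N (k + 1)), coeffL (uu B p) g = coeffL (vv B p) g := Iff.rfl

lemma alg_closed : IsClosed (alg B : Set L1T) := by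
  have : (alg B : Set L1T) =
      (⋂ n : ℤ, ⋂ _ : fourierCoeff (bigF B : UnitAddCircle → ℂ) n = 0, {g | coeffL n g = 0}) ∩
      (⋂ p : Σ k : ℕ, Fin (N (k + 1)), {g | coeffL (uu B p) g = coeffL (vv B p) g}) := by
    ext g
    simp only [Set.mem_inter_iff, Set.mem_iInter, Set.mem_ofPred_eq]
    exact mem_alg B g
  rw [this]
  apply IsClosed.inter
  · apply isClosed_iInter; intro n
    apply isClosed_iInter; intro _
    exact isClosed_eq (coeffL n).continuous continuous_const
  · apply isClosed_iInter; intro p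
    exact isClosed_eq (coeffL _).continuous (coeffL _).continuous

lemma alg_mul : ∀ f ∈ alg B, ∀ g ∈ alg B, ∃ h ∈ alg B, ∀ n : ℤ,
        fourierCoeff (h : UnitAddCircle → ℂ) n =
          fourierCoeff (f : UnitAddCircle → ℂ) n * fourierCoeff (g : UnitAddCircle → ℂ) n := by
  intro f hf g hg
  obtain ⟨h, hh⟩ := conv_exists f g
  refine ⟨h, ?_, hh⟩
  rw [mem_alg] at *
  refine ⟨fun n hn => ?_, fun p => ?_⟩
  · rw [coeffL_apply, hh, ← coeffL_apply n f, hf.1 n hn, zero_mul]
  · have h1 := hf.2 p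
    have h2 := hg.2 p
    rw [coeffL_apply, coeffL_apply] at h1 h2
    rw [coeffL_apply, coeffL_apply, hh, hh, h1, h2]

variable (hη : ∀ k, 0 < η k)

include hα in
lemma coeff_uu (p : Σ k : ℕ, Fin (N (k + 1))) :
    fourierCoeff (bigF B : UnitAddCircle → ℂ) (uu B p) = (η (p.1 + 1) : ℂ) := by
  unfold uu
  rw [coeff_bigF B hα _ _ ((B p.1).o_le _), (B p.1).F_o]

include hα in
lemma coeff_vv (p : Σ k : ℕ, Fin (N (k + 1))) :
    fourierCoeff (bigF B : UnitAddCircle → ℂ) (vv B p) = (η (p.1 + 1) : ℂ) := by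
  unfold vv
  rw [coeff_bigF B hα _ _ ((B (p.1 + 1)).i_le _), (B (p.1 + 1)).F_i]

include hα in
lemma bigF_mem : bigF B ∈ alg B := by
  rw [mem_alg]
  refine ⟨fun n hn => by rw [coeffL_apply, hn], fun p => ?_⟩
  rw [coeffL_apply, coeffL_apply, coeff_uu B hα, coeff_vv B hα]

/-- The finite Rudin classes have at most two elements. -/
lemma classes (hα : Summable α) (hη : ∀ k, 0 < η k) (n : ℤ)
    (hfin : {m : ℤ | ∀ f ∈ alg B, fourierCoeff (f : UnitAddCircle → ℂ) m =
            fourierCoeff (f : UnitAddCircle → ℂ) n}.Finite) :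
    {m : ℤ | ∀ f ∈ alg B, fourierCoeff (f : UnitAddCircle → ℂ) m =
            fourierCoeff (f : UnitAddCircle → ℂ) n}.ncard ≤ 2 := by
  by_cases h0 : fourierCoeff (bigF B : UnitAddCircle → ℂ) n = 0
  · exfalso
    have hsub : Set.Iio (0 : ℤ) ⊆ {m : ℤ | ∀ f ∈ alg B, fourierCoeff (f : UnitAddCircle → ℂ) m =
            fourierCoeff (f : UnitAddCircle → ℂ) n} := by
      intro m hm f hf
      have h1 := hf.1 m (coeff_bigF_neg B hα m hm)
      have h2 := hf.1 n h0
      rw [← coeffL_apply, ← coeffL_apply, h1, h2]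
    exact (Set.Iio_infinite (0 : ℤ)) (hfin.subset hsub)
  · -- the pair function
    have hpair : ∀ p : Σ k : ℕ, Fin (N (k + 1)),
        (fourierLp 1 (uu B p) + fourierLp 1 (vv B p) : L1T) ∈ alg B := by
      intro p
      have hc : ∀ m : ℤ, coeffL m (fourierLp 1 (uu B p) + fourierLp 1 (vv B p) : L1T) =
          (if m = uu B p then 1 else 0) + (if m = vv B p then 1 else 0) := by
        intro m
        rw [map_add, coeffL_apply, coeffL_apply, fourierCoeff_fourierLp, fourierCoeff_fourierLp]
      rw [mem_alg]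
      refine ⟨fun m hm => ?_, fun q => ?_⟩
      · rw [hc, if_neg, if_neg, add_zero]
        · rintro rfl
          rw [coeff_vv B hα] at hm
          exact (hη (p.1 + 1)).ne' (by exact_mod_cast hm)
        · rintro rfl
          rw [coeff_uu B hα] at hm
          exact (hη (p.1 + 1)).ne' (by exact_mod_cast hm)
      · rw [hc, hc, if_neg (uu_ne_vv B q p), if_neg (uu_ne_vv B p q).symm, add_zero, zero_add]
        by_cases hqp : q = p
        · subst hqp; rw [if_pos rfl, if_pos rfl]
        · rw [if_neg (fun h => hqp (uu_inj B h)), if_neg (fun h => hqp (vv_inj B h))]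
    have hpair_le : ∀ (p : Σ k : ℕ, Fin (N (k + 1))) (n' : ℤ), (n' = uu B p ∨ n' = vv B p) →
        {m : ℤ | ∀ f ∈ alg B, fourierCoeff (f : UnitAddCircle → ℂ) m =
            fourierCoeff (f : UnitAddCircle → ℂ) n'} ⊆ {uu B p, vv B p} := by
      intro p n' hn' m hm
      have h1 := hm _ (hpair p)
      have hc : ∀ m : ℤ, fourierCoeff
          ((fourierLp 1 (uu B p) + fourierLp 1 (vv B p) : L1T) : UnitAddCircle → ℂ) m =
          (if m = uu B p then 1 else 0) + (if m = vv B p then 1 else 0) := by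
        intro m
        rw [← coeffL_apply, map_add, coeffL_apply, coeffL_apply, fourierCoeff_fourierLp,
          fourierCoeff_fourierLp]
      rw [hc, hc] at h1
      simp only [Set.mem_insert_iff, Set.mem_singleton_iff]
      by_contra hcon
      push Not at hcon
      rw [if_neg hcon.1, if_neg hcon.2] at h1
      rcases hn' with h | h
      · rw [if_pos h, if_neg (by rw [h]; exact uu_ne_vv B p p)] at h1
        norm_num at h1
      · rw [if_pos h, if_neg (by rw [h]; exact (uu_ne_vv B p p).symm)] at h1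
        norm_num at h1
    by_cases hu : ∃ p, n = uu B p
    · obtain ⟨p, hp⟩ := hu
      calc _ ≤ ({uu B p, vv B p} : Set ℤ).ncard :=
            Set.ncard_le_ncard (hpair_le p n (Or.inl hp)) (by simp)
        _ ≤ 2 := (Set.ncard_pair (uu_ne_vv B p p)).le
    · by_cases hv : ∃ p, n = vv B p
      · obtain ⟨p, hp⟩ := hv
        calc _ ≤ ({uu B p, vv B p} : Set ℤ).ncard :=
              Set.ncard_le_ncard (hpair_le p n (Or.inr hp)) (by simp)
          _ ≤ 2 := (Set.ncard_pair (uu_ne_vv B p p)).le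
      · push Not at hu hv
        have hmem : (fourierLp 1 n : L1T) ∈ alg B := by
          rw [mem_alg]
          refine ⟨fun m hm => ?_, fun q => ?_⟩
          · rw [coeffL_apply, fourierCoeff_fourierLp, if_neg]
            rintro rfl
            exact h0 hm
          · rw [coeffL_apply, coeffL_apply, fourierCoeff_fourierLp, fourierCoeff_fourierLp,
              if_neg (hu q).symm, if_neg (hv q).symm]
        have hsub : {m : ℤ | ∀ f ∈ alg B, fourierCoeff (f : UnitAddCircle → ℂ) m =
            fourierCoeff (f : UnitAddCircle → ℂ) n} ⊆ {n} := by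
          intro m hm
          have h1 := hm _ hmem
          rw [fourierCoeff_fourierLp, fourierCoeff_fourierLp, if_pos rfl] at h1
          by_contra hcon
          rw [if_neg (show ¬ m = n from hcon)] at h1
          exact zero_ne_one h1
        calc _ ≤ ({n} : Set ℤ).ncard := Set.ncard_le_ncard hsub (by simp)
          _ ≤ 2 := by rw [Set.ncard_singleton]; norm_num

/-! ### The functional -/

/-- The test function of block `k`. -/
noncomputable def phi (k : ℕ) : C(UnitAddCircle, ℂ) :=
  ∑ n ∈ Finset.Icc (-((B k).H : ℤ)) (B k).H, (((B k).b n : ℝ) : ℂ) • fourier (-(n + cen B k))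

lemma norm_phi (hγ0 : ∀ k, 0 ≤ γ k) (k : ℕ) : ‖phi B k‖ ≤ γ k := by
  rw [ContinuousMap.norm_le _ (hγ0 k)]
  intro x
  refine le_trans (le_of_eq ?_) ((B k).G_norm x)
  have h1 : phi B k x = fourier (-(cen B k)) x * (starRingEnd ℂ)
      (∑ n ∈ Finset.Icc (-((B k).H : ℤ)) (B k).H, (((B k).b n : ℝ) : ℂ) * fourier n x) := by
    unfold phi
    rw [ContinuousMap.sum_apply, map_sum, Finset.mul_sum]
    apply Finset.sum_congr rfl
    intro n _
    have h2 : -(n + cen B k) = -(cen B k) + -n := by ring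
    rw [ContinuousMap.smul_apply, smul_eq_mul, map_mul, Complex.conj_ofReal, ← fourier_neg,
      mul_left_comm, ← fourier_add, h2]
  rw [h1, norm_mul, RCLike.norm_conj]
  have : ‖(fourier (-(cen B k)) x : ℂ)‖ = 1 := by
    rw [fourier_apply]; exact Circle.norm_coe _
  rw [this, one_mul]

lemma pair_phi (k : ℕ) (g : L1T) : pair (phi B k) g =
    ∑ n ∈ Finset.Icc (-((B k).H : ℤ)) (B k).H, (((B k).b n : ℝ) : ℂ) * coeffL (n + cen B k) g := by
  have hg : Integrable (g : UnitAddCircle → ℂ) hm := L1.integrable_coeFn g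
  rw [pair_apply]
  have h1 : ∀ t, phi B k t * g t = ∑ n ∈ Finset.Icc (-((B k).H : ℤ)) (B k).H,
      (((B k).b n : ℝ) : ℂ) * (fourier (-(n + cen B k)) t * g t) := by
    intro t
    unfold phi
    rw [ContinuousMap.sum_apply, Finset.sum_mul]
    apply Finset.sum_congr rfl
    intro n _
    rw [ContinuousMap.smul_apply, smul_eq_mul, mul_assoc]
  simp_rw [h1]
  rw [integral_finsetSum]
  · apply Finset.sum_congr rfl
    intro n _
    rw [integral_const_mul]
    rfl
  · intro n _
    exact (hg.fourier_smul (-(n + cen B k))).const_mul _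

/-- The flow through level `k`. -/
noncomputable def flow (k : ℕ) (g : L1T) : ℂ :=
  (((1 / (η k * N k) : ℝ)) : ℂ) * ∑ j : Fin (N k), coeffL ((B k).i j + cen B k) g

include hα in
lemma pair_phi_alg (k : ℕ) (g : L1T) (hg : g ∈ alg B) :
    pair (phi B k) g = flow B (k + 1) g - flow B k g := by
  rw [pair_phi]
  have hsub : (Finset.univ.image (Sum.elim (B k).i (B k).o)) ⊆
      Finset.Icc (-((B k).H : ℤ)) (B k).H := by
    intro n hn
    rw [Finset.mem_image] at hn
    obtain ⟨j, _, rfl⟩ := hn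
    rw [Finset.mem_Icc, ← abs_le]
    rcases j with (j | j)
    · exact (B k).i_le j
    · exact (B k).o_le j
  rw [← Finset.sum_subset hsub]
  · rw [Finset.sum_image (fun a _ b _ h => (B k).inj h), Fintype.sum_sum_type]
    simp only [Sum.elim_inl, Sum.elim_inr, (B k).b_i, (B k).b_o]
    have h1 : ∀ j : Fin (N (k + 1)), coeffL ((B k).o j + cen B k) g =
        coeffL ((B (k + 1)).i j + cen B (k + 1)) g := fun j => hg.2 ⟨k, j⟩
    simp_rw [h1]
    unfold flow
    rw [← Finset.mul_sum, ← Finset.mul_sum, Complex.ofReal_neg, neg_mul]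
    ring
  · intro n hn hn2
    by_cases hb : (B k).b n = 0
    · rw [hb]; simp
    · have hz : fourierCoeff (B k).F n = 0 := by
        apply (B k).b_zero n _ _ hb
        · rintro ⟨j, rfl⟩
          exact hn2 (Finset.mem_image.mpr ⟨Sum.inl j, Finset.mem_univ _, rfl⟩)
        · rintro ⟨j, rfl⟩
          exact hn2 (Finset.mem_image.mpr ⟨Sum.inr j, Finset.mem_univ _, rfl⟩)
      have hz2 : fourierCoeff (bigF B : UnitAddCircle → ℂ) (n + cen B k) = 0 := by
        rw [coeff_bigF B hα k n (by rw [Finset.mem_Icc, ← abs_le] at hn; exact hn), hz]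
      rw [hg.1 _ hz2, mul_zero]

lemma norm_flow_bigF (hα : Summable α) (hη : ∀ k, 0 < η k) (hN : ∀ k, 0 < N k) (k : ℕ) :
    flow B k (bigF B) = 1 := by
  unfold flow
  have h1 : ∀ j : Fin (N k), coeffL ((B k).i j + cen B k) (bigF B) = (η k : ℂ) := by
    intro j
    rw [coeffL_apply, coeff_bigF B hα k _ ((B k).i_le j), (B k).F_i]
  simp_rw [h1]
  rw [Finset.sum_const, Finset.card_univ, Fintype.card_fin, nsmul_eq_mul]
  have h2 : (η k : ℂ) ≠ 0 := by exact_mod_cast (hη k).ne'
  have h3 : (N k : ℂ) ≠ 0 := by exact_mod_cast (hN k).ne'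
  push_cast
  field_simp

lemma flow_idem (e : L1T)
    (he : ∀ n : ℤ, fourierCoeff (e : UnitAddCircle → ℂ) n * fourierCoeff (e : UnitAddCircle → ℂ) n =
                fourierCoeff (e : UnitAddCircle → ℂ) n) :
    ∃ K : ℕ, ∀ k, K ≤ k → flow B k e = 0 := by
  obtain ⟨R, hR⟩ := riemann_lebesgue e 1 one_pos
  refine ⟨R, fun k hk => ?_⟩
  unfold flow
  have h1 : ∀ j : Fin (N k), coeffL ((B k).i j + cen B k) e = 0 := by
    intro j
    have h2 := (B k).i_le j
    have h3 := wS_ge B k
    have h4 : (R : ℤ) < |(B k).i j + cen B k| := by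
      rw [abs_le] at h2
      unfold cen
      rw [lt_abs]
      left
      omega
    have h5 := hR _ h4
    have h6 := he ((B k).i j + cen B k)
    rw [coeffL_apply]
    set z := fourierCoeff (e : UnitAddCircle → ℂ) ((B k).i j + cen B k) with hz
    have h7 : z * (z - 1) = 0 := by rw [mul_sub, h6, mul_one, sub_self]
    rcases mul_eq_zero.mp h7 with h8 | h8
    · exact h8
    · rw [sub_eq_zero] at h8
      rw [h8] at h5
      simp at h5
  simp_rw [h1]
  simp

include B in
/-- The abstract construction: a sequence of blocks yields the algebra. -/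
theorem assembly (hα : Summable α) (hγ : Summable γ) (hγ0 : ∀ k, 0 ≤ γ k)
    (hη : ∀ k, 0 < η k) (hN : ∀ k, 0 < N k) :
    ∃ A : Submodule ℂ (MeasureTheory.Lp ℂ 1
        (AddCircle.haarAddCircle : MeasureTheory.Measure UnitAddCircle)),
      IsClosed (A : Set (MeasureTheory.Lp ℂ 1
        (AddCircle.haarAddCircle : MeasureTheory.Measure UnitAddCircle))) ∧
      (∀ f ∈ A, ∀ g ∈ A, ∃ h ∈ A, ∀ n : ℤ,
        fourierCoeff (h : UnitAddCircle → ℂ) n =
          fourierCoeff (f : UnitAddCircle → ℂ) n * fourierCoeff (g : UnitAddCircle → ℂ) n) ∧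
      ¬ (A ≤ (Submodule.span ℂ
          {e : MeasureTheory.Lp ℂ 1
              (AddCircle.haarAddCircle : MeasureTheory.Measure UnitAddCircle) |
            e ∈ A ∧ ∀ n : ℤ,
              fourierCoeff (e : UnitAddCircle → ℂ) n * fourierCoeff (e : UnitAddCircle → ℂ) n =
                fourierCoeff (e : UnitAddCircle → ℂ) n}).topologicalClosure) ∧
      ∀ n : ℤ,
        {m : ℤ | ∀ f ∈ A, fourierCoeff (f : UnitAddCircle → ℂ) m =
            fourierCoeff (f : UnitAddCircle → ℂ) n}.Finite →
        {m : ℤ | ∀ f ∈ A, fourierCoeff (f : UnitAddCircle → ℂ) m =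
            fourierCoeff (f : UnitAddCircle → ℂ) n}.ncard ≤ 2 := by
  refine ⟨alg B, alg_closed B, alg_mul B, ?_, classes B hα hη⟩
  intro hle
  -- the functional
  have hsum : Summable (fun k => pair (phi B k)) := by
    apply Summable.of_norm_bounded hγ
    intro k
    exact (norm_pair_le _).trans (norm_phi B hγ0 k)
  set Φ : L1T →L[ℂ] ℂ := (∑' k, pair (phi B k)) +
    (((1 / (η 0 * N 0) : ℝ)) : ℂ) • ∑ j : Fin (N 0), coeffL ((B 0).i j + cen B 0) with hΦ
  have hflow0 : ∀ g : L1T, ((((1 / (η 0 * N 0) : ℝ)) : ℂ) •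
      ∑ j : Fin (N 0), coeffL ((B 0).i j + cen B 0)) g = flow B 0 g := by
    intro g
    unfold flow
    rw [ContinuousLinearMap.smul_apply, ContinuousLinearMap.sum_apply, smul_eq_mul]
  have htend : ∀ g ∈ alg B, Filter.Tendsto (fun K => flow B K g) Filter.atTop (nhds (Φ g)) := by
    intro g hg
    have h1 : HasSum (fun k => pair (phi B k) g) ((∑' k, pair (phi B k)) g) := by
      have := hsum.hasSum.mapL (ContinuousLinearMap.apply ℂ ℂ g)
      simpa using this
    have h2 := h1.tendsto_sum_nat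
    have h3 : ∀ K, ∑ k ∈ Finset.range K, pair (phi B k) g = flow B K g - flow B 0 g := by
      intro K
      rw [← Finset.sum_range_sub (fun k => flow B k g)]
      apply Finset.sum_congr rfl
      intro k _
      exact pair_phi_alg B hα k g hg
    simp_rw [h3] at h2
    have h4 := h2.add_const (flow B 0 g)
    simp only [sub_add_cancel] at h4
    have h5 : Φ g = (∑' k, pair (phi B k)) g + flow B 0 g := by
      rw [hΦ, ContinuousLinearMap.add_apply, hflow0]
    rw [h5]
    exact h4
  -- it vanishes on the idempotents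
  have hzero : ∀ e ∈ alg B, (∀ n : ℤ, fourierCoeff (e : UnitAddCircle → ℂ) n *
      fourierCoeff (e : UnitAddCircle → ℂ) n = fourierCoeff (e : UnitAddCircle → ℂ) n) →
      Φ e = 0 := by
    intro e he hidem
    obtain ⟨K, hK⟩ := flow_idem B e hidem
    have h1 := htend e he
    have h2 : Filter.Tendsto (fun K => flow B K e) Filter.atTop (nhds 0) := by
      apply tendsto_const_nhds.congr'
      filter_upwards [Filter.eventually_ge_atTop K] with k hk
      exact (hK k hk).symm
    exact tendsto_nhds_unique h1 h2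
  have hker : (Submodule.span ℂ
          {e : L1T | e ∈ alg B ∧ ∀ n : ℤ,
              fourierCoeff (e : UnitAddCircle → ℂ) n * fourierCoeff (e : UnitAddCircle → ℂ) n =
                fourierCoeff (e : UnitAddCircle → ℂ) n}).topologicalClosure ≤
      LinearMap.ker Φ.toLinearMap := by
    apply Submodule.topologicalClosure_minimal
    · rw [Submodule.span_le]
      rintro e ⟨he, hidem⟩
      exact hzero e he hidem
    · exact Φ.isClosed_ker
  have hone : Φ (bigF B) = 1 := by
    have h1 := htend _ (bigF_mem B hα)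
    have h2 : Filter.Tendsto (fun K => flow B K (bigF B)) Filter.atTop (nhds 1) := by
      apply tendsto_const_nhds.congr
      intro k
      exact (norm_flow_bigF B hα hη hN k).symm
    exact tendsto_nhds_unique h1 h2
  have : Φ (bigF B) = 0 := hker (hle (bigF_mem B hα))
  rw [hone] at this
  exact one_ne_zero this

end assembly

end Pool.Agent.Lib.MP_ceba03_an
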