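import Pool.Agent.Lib.MP_ceba03_an.Trig

set_option autoImplicit false
set_option linter.unusedSectionVars false

open Finset MeasureTheory AddCircle

namespace Pool.Agent.Lib.MP_ceba03_an

/-! ### The sign patterns -/

section patterns

variable {d : ℕ}

/-- The vector with support `E` and minus signs on `S`. -/
def sv (E S : Finset (Fin d)) (j : Fin d) : ℤ := if j ∈ E then (if j ∈ S then -1 else 1) else 0

lemma abs_sv (E S : Finset (Fin d)) (j : Fin d) : |sv E S j| ≤ 1 := by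
  unfold sv; split_ifs <;> norm_num

lemma sv_eq_zero (E S : Finset (Fin d)) (j : Fin d) : sv E S j = 0 ↔ j ∉ E := by
  unfold sv; split_ifs <;> simp_all

lemma sv_inj {E S E' S' : Finset (Fin d)} (hS : S ⊆ E) (hS' : S' ⊆ E')
    (h : sv E S = sv E' S') : E = E' ∧ S = S' := by
  have hE : E = E' := by
    ext j
    have := congrFun h j
    have h1 := sv_eq_zero E S j
    have h2 := sv_eq_zero E' S' j
    rw [this, h2] at h1
    exact (not_iff_not.mp h1).symm
  refine ⟨hE, ?_⟩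
  subst hE
  ext j
  have h1 := congrFun h j
  unfold sv at h1
  by_cases hj : j ∈ E
  · rw [if_pos hj, if_pos hj] at h1
    by_cases h2 : j ∈ S <;> by_cases h3 : j ∈ S' <;> simp_all
  · constructor
    · intro h2; exact absurd (hS h2) hj
    · intro h2; exact absurd (hS' h2) hj

lemma lamv_sv_inj (B : ℤ) (hB : 2 < B) {E S E' S' : Finset (Fin d)} (hS : S ⊆ E) (hS' : S' ⊆ E')
    (h : lamv B (sv E S) = lamv B (sv E' S')) : E = E' ∧ S = S' := by
  apply sv_inj hS hS'
  apply lamv_inj B (by omega) _ _ _ h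
  intro j
  have h1 := abs_le.mp (abs_sv E S j)
  have h2 := abs_le.mp (abs_sv E' S' j)
  rw [abs_lt]
  constructor <;> omega

/-- The value of the product over all coordinates. -/
lemma prod_kernel (M : ℝ) (θ : Option (Fin d)) (E S : Finset (Fin d)) :
    (∏ j, (if sv E S j = 0 then M else sgt θ j * (M - 1))) =
      M ^ (d - E.card) * (M - 1) ^ E.card * ∏ j ∈ E, sgt θ j := by
  have h1 : ∀ j, (if sv E S j = 0 then M else sgt θ j * (M - 1)) =
      if j ∈ E then sgt θ j * (M - 1) else M := by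
    intro j
    by_cases hj : j ∈ E
    · rw [if_neg (by rw [sv_eq_zero]; simpa using hj), if_pos hj]
    · rw [if_pos (by rw [sv_eq_zero]; exact hj), if_neg hj]
  simp_rw [h1]
  rw [prod_ite]
  have h2 : (univ.filter (fun j => j ∈ E)) = E := by ext; simp
  have h3 : (univ.filter (fun j => j ∉ E)) = Eᶜ := by ext; simp
  rw [h2, h3, prod_mul_distrib, prod_const, prod_const, card_compl, Fintype.card_fin]
  ring

lemma prod_sgt_none (E : Finset (Fin d)) : ∏ j ∈ E, sgt none j = 1 := by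
  apply prod_eq_one; intro j _
  unfold sgt; rw [if_neg (by simp)]

lemma prod_sgt_some (E : Finset (Fin d)) (i : Fin d) :
    ∏ j ∈ E, sgt (some i) j = if i ∈ E then -1 else 1 := by
  have h1 : ∀ j, sgt (some i) j = if j = i then -1 else 1 := by
    intro j
    unfold sgt
    simp only [Option.some.injEq, eq_comm]
  simp_rw [h1]
  rw [prod_ite_eq']

lemma sum_prod_sgt_some (E : Finset (Fin d)) :
    ∑ i : Fin d, ∏ j ∈ E, sgt (some i) j = (d : ℝ) - 2 * E.card := by
  simp_rw [prod_sgt_some]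
  have h1 : ∀ i : Fin d, (if i ∈ E then (-1 : ℝ) else 1) = 1 - 2 * (if i ∈ E then 1 else 0) := by
    intro i; split_ifs <;> norm_num
  simp_rw [h1]
  rw [sum_sub_distrib, ← mul_sum]
  simp

end patterns

/-! ### The function `F` of a block -/

section blockF

variable (p M : ℕ) (B : ℤ)

/-- The function of the block before normalisation; `d = 2 (p + 2)`. -/
noncomputable def FF (t : ℝ) : C(UnitAddCircle, ℂ) :=
  ((t * (2 / ((p : ℝ) + 2)) / (M : ℝ) ^ (2 * (p + 2)) : ℝ) : ℂ) •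
      KK (d := 2 * (p + 2)) M B none +
    ∑ i : Fin (2 * (p + 2)), ((t * (1 / (2 * ((p : ℝ) + 2))) / (M : ℝ) ^ (2 * (p + 2)) : ℝ) : ℂ) •
      KK M B (some i)

/-- The coefficients of `FF` at the relevant frequencies. -/
lemma cf_FF (hM : 1 ≤ M) (hB : (M : ℤ) < B) (t : ℝ) (E S : Finset (Fin (2 * (p + 2)))) :
    cf (lamv B (sv E S)) (FF p M B t) =
      ((t * (1 - 1 / (M : ℝ)) ^ E.card * (((p : ℝ) + 4 - E.card) / ((p : ℝ) + 2)) : ℝ) : ℂ) := by
  have hMr : (0 : ℝ) < M := by exact_mod_cast hM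
  have hcard : E.card ≤ 2 * (p + 2) := by
    have := card_le_univ E
    rwa [Fintype.card_fin] at this
  unfold FF
  rw [map_add, map_smul, map_sum, cf_KK_lamv M B hM hB none _ (abs_sv E S)]
  simp_rw [map_smul, cf_KK_lamv M B hM hB _ _ (abs_sv E S), prod_kernel]
  rw [prod_sgt_none]
  simp only [smul_eq_mul]
  rw [← Complex.ofReal_mul]
  simp_rw [← Complex.ofReal_mul]
  rw [← Complex.ofReal_sum, ← Complex.ofReal_add]
  congr 1
  have h1 : ∀ i : Fin (2 * (p + 2)), t * (1 / (2 * ((p : ℝ) + 2))) / (M : ℝ) ^ (2 * (p + 2)) *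
      ((M : ℝ) ^ (2 * (p + 2) - E.card) * ((M : ℝ) - 1) ^ E.card * ∏ j ∈ E, sgt (some i) j) =
      (t * (1 / (2 * ((p : ℝ) + 2))) / (M : ℝ) ^ (2 * (p + 2)) *
      ((M : ℝ) ^ (2 * (p + 2) - E.card) * ((M : ℝ) - 1) ^ E.card)) *
        ∏ j ∈ E, sgt (some i) j := by
    intro i; ring
  simp_rw [h1]
  rw [← mul_sum, sum_prod_sgt_some]
  have h2 : (M : ℝ) ^ (2 * (p + 2) - E.card) * ((M : ℝ) - 1) ^ E.card =
      (M : ℝ) ^ (2 * (p + 2)) * (1 - 1 / (M : ℝ)) ^ E.card := by
    have h3 : (M : ℝ) - 1 = M * (1 - 1 / M) := by field_simp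
    rw [h3, mul_pow, ← mul_assoc, ← pow_add, Nat.sub_add_cancel hcard]
  rw [h2]
  have h4 : (M : ℝ) ^ (2 * (p + 2)) ≠ 0 := by positivity
  have h5 : (p : ℝ) + 2 ≠ 0 := by positivity
  push_cast
  field_simp
  ring

lemma FF_apply (t : ℝ) (ht : 0 ≤ t) (x : UnitAddCircle) :
    ∃ y : ℝ, 0 ≤ y ∧ FF p M B t x = (y : ℂ) := by
  refine ⟨(t * (2 / ((p : ℝ) + 2)) / (M : ℝ) ^ (2 * (p + 2))) *
      ‖PP (d := 2 * (p + 2)) M B none x‖ ^ 2 +
    ∑ i : Fin (2 * (p + 2)), (t * (1 / (2 * ((p : ℝ) + 2))) / (M : ℝ) ^ (2 * (p + 2))) *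
      ‖PP M B (some i) x‖ ^ 2, by positivity, ?_⟩
  unfold FF
  rw [ContinuousMap.add_apply, ContinuousMap.smul_apply, ContinuousMap.sum_apply, KK_apply]
  simp_rw [ContinuousMap.smul_apply, KK_apply]
  push_cast
  rfl

/-- The `L¹` norm of `FF`. -/
lemma norm_FF (hM : 1 ≤ M) (hB : (M : ℤ) < B) (t : ℝ) (ht : 0 ≤ t) :
    ∫ x, ‖FF p M B t x‖ ∂hm = t * (((p : ℝ) + 4) / ((p : ℝ) + 2)) := by
  have h1 : ∀ x, ((‖FF p M B t x‖ : ℝ) : ℂ) = FF p M B t x := by
    intro x
    obtain ⟨y, hy, he⟩ := FF_apply p M B t ht x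
    rw [he, Complex.norm_real, Real.norm_of_nonneg hy]
  have h2 : ((∫ x, ‖FF p M B t x‖ ∂hm : ℝ) : ℂ) = cf 0 (FF p M B t) := by
    rw [← integral_complex_ofReal, cf_apply]
    unfold fourierCoeff
    apply integral_congr_ae
    refine Filter.Eventually.of_forall (fun x => ?_)
    simp only [h1, neg_zero, fourier_zero, one_smul]
  have h3 : lamv (d := 2 * (p + 2)) B (sv ∅ ∅) = 0 := by
    unfold lamv sv
    simp
  have h4 := cf_FF p M B hM hB t ∅ ∅
  rw [h3, card_empty, pow_zero] at h4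
  rw [h4] at h2
  have h5 := Complex.ofReal_injective h2
  rw [h5]
  push_cast
  ring

lemma cf_FF_large (Bn : ℕ) (t : ℝ) (r : ℤ)
    (hr : ((∑ j : Fin (2 * (p + 2)), M * Bn ^ (j : ℕ) : ℕ) : ℤ) < |r|) :
    cf r (FF p M (Bn : ℤ) t) = 0 := by
  unfold FF
  rw [map_add, map_smul, map_sum, cf_KK_large M Bn none r hr, smul_zero, zero_add]
  apply sum_eq_zero
  intro i _
  rw [map_smul, cf_KK_large M Bn _ r hr, smul_zero]

end blockF

/-! ### The measure side -/

section blockG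

variable {d : ℕ} (B : ℤ)

/-- The index set of the signed patterns with support in `Es`. -/
def pats (Es : Finset (Finset (Fin d))) : Finset (Σ _ : Finset (Fin d), Finset (Fin d)) :=
  Es.sigma (fun E => E.powerset)

lemma card_pats (Es : Finset (Finset (Fin d))) (s : ℕ) (h : ∀ E ∈ Es, E.card = s) :
    (pats Es).card = Es.card * 2 ^ s := by
  unfold pats
  rw [card_sigma]
  rw [sum_congr rfl (g := fun _ => 2 ^ s)]
  · rw [sum_const, smul_eq_mul]
  · intro E hE
    rw [card_powerset, h E hE]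

/-- The coefficient sequence. -/
noncomputable def bb (b₀ : Finset (Fin d) → ℝ) (n : ℤ) : ℝ :=
  ∑ E : Finset (Fin d), ∑ S ∈ E.powerset,
    (if n = lamv B (sv E S) then b₀ E / 2 ^ E.card else 0)

lemma bb_lamv (hB : 2 < B) (b₀ : Finset (Fin d) → ℝ) (E S : Finset (Fin d)) (hS : S ⊆ E) :
    bb B b₀ (lamv B (sv E S)) = b₀ E / 2 ^ E.card := by
  unfold bb
  rw [sum_eq_single E]
  · rw [sum_eq_single S]
    · rw [if_pos rfl]
    · intro S' hS' hne
      rw [if_neg]
      intro h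
      exact hne (lamv_sv_inj B hB hS (mem_powerset.mp hS') h).2.symm
    · intro h
      exact absurd (mem_powerset.mpr hS) h
  · intro E' _ hne
    apply sum_eq_zero
    intro S' hS'
    rw [if_neg]
    intro h
    exact hne (lamv_sv_inj B hB hS (mem_powerset.mp hS') h).1.symm
  · intro h; exact absurd (mem_univ _) h

lemma bb_ne_zero (b₀ : Finset (Fin d) → ℝ) (n : ℤ) (h : bb B b₀ n ≠ 0) :
    ∃ E S : Finset (Fin d), S ⊆ E ∧ n = lamv B (sv E S) ∧ b₀ E ≠ 0 := by
  unfold bb at h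
  obtain ⟨E, _, hE⟩ := exists_ne_zero_of_sum_ne_zero h
  obtain ⟨S, hS, hS2⟩ := exists_ne_zero_of_sum_ne_zero hE
  by_cases hn : n = lamv B (sv E S)
  · rw [if_pos hn] at hS2
    exact ⟨E, S, mem_powerset.mp hS, hn, fun h0 => hS2 (by rw [h0, zero_div])⟩
  · rw [if_neg hn] at hS2
    exact absurd rfl hS2

/-- The cosine at coordinate `j`. -/
noncomputable def cj (x : UnitAddCircle) (j : Fin d) : ℝ := (fourier (B ^ (j : ℕ)) x : ℂ).re

lemma abs_cj (x : UnitAddCircle) (j : Fin d) : |cj B x j| ≤ 1 := by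
  unfold cj
  refine (Complex.abs_re_le_norm _).trans ?_
  rw [fourier_apply, Circle.norm_coe]

lemma fourier_lamv (v : Fin d → ℤ) (x : UnitAddCircle) :
    (fourier (lamv B v) x : ℂ) = ∏ j, fourier (v j * B ^ (j : ℕ)) x := by
  unfold lamv
  exact fourier_sum_apply univ _ x

lemma sum_signs (E : Finset (Fin d)) (x : UnitAddCircle) :
    ∑ S ∈ E.powerset, (fourier (lamv B (sv E S)) x : ℂ) =
      2 ^ E.card * ((∏ j ∈ E, cj B x j : ℝ) : ℂ) := by
  have h1 : ∀ S ∈ E.powerset, (fourier (lamv B (sv E S)) x : ℂ) =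
      (∏ j ∈ S, (fourier (-(B ^ (j : ℕ))) x : ℂ)) * ∏ j ∈ E \ S, (fourier (B ^ (j : ℕ)) x : ℂ) := by
    intro S hS
    have hSE := mem_powerset.mp hS
    rw [fourier_lamv]
    have h2 : ∏ j, (fourier (sv E S j * B ^ (j : ℕ)) x : ℂ) =
        ∏ j ∈ E, (fourier (sv E S j * B ^ (j : ℕ)) x : ℂ) := by
      symm
      apply prod_subset (subset_univ E)
      intro j _ hj
      rw [(sv_eq_zero E S j).mpr hj, zero_mul, fourier_zero]
    rw [h2, ← prod_sdiff hSE, mul_comm]
    congr 1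
    · apply prod_congr rfl
      intro j hj
      have : sv E S j = -1 := by
        unfold sv; rw [if_pos (hSE hj), if_pos hj]
      rw [this, neg_one_mul]
    · apply prod_congr rfl
      intro j hj
      have hj' := mem_sdiff.mp hj
      have : sv E S j = 1 := by
        unfold sv; rw [if_pos hj'.1, if_neg hj'.2]
      rw [this, one_mul]
  rw [sum_congr rfl h1, ← prod_add]
  have h3 : ∀ j ∈ E, (fourier (-(B ^ (j : ℕ))) x : ℂ) + (fourier (B ^ (j : ℕ)) x : ℂ) =
      2 * ((cj B x j : ℝ) : ℂ) := by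
    intro j _
    unfold cj
    rw [fourier_neg, add_comm, Complex.add_conj]
    push_cast
    rfl
  rw [prod_congr rfl h3, prod_mul_distrib, prod_const]
  push_cast
  rfl

/-- The sup norm bound of the measure side. -/
lemma bb_bound (b₀ : Finset (Fin d) → ℝ) (K : ℝ) (Bn : ℕ) (Mn : ℕ) (hMn : 1 ≤ Mn)
    (hK : ∀ J : Finset (Fin d), |∑ E : Finset (Fin d), b₀ E * ∏ j ∈ E, sg J j| ≤ K)
    (H : ℕ) (hH : H = ∑ j : Fin d, Mn * Bn ^ (j : ℕ)) (x : UnitAddCircle) :
    ‖∑ n ∈ Icc (-(H : ℤ)) H, ((bb (Bn : ℤ) b₀ n : ℝ) : ℂ) * fourier n x‖ ≤ K := by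
  have h1 : ∑ n ∈ Icc (-(H : ℤ)) H, ((bb (Bn : ℤ) b₀ n : ℝ) : ℂ) * fourier n x =
      ((∑ E : Finset (Fin d), b₀ E * ∏ j ∈ E, cj (Bn : ℤ) x j : ℝ) : ℂ) := by
    have h2 : ∀ n : ℤ, ((bb (Bn : ℤ) b₀ n : ℝ) : ℂ) * fourier n x =
        ∑ E : Finset (Fin d), ∑ S ∈ E.powerset,
          (if n = lamv (Bn : ℤ) (sv E S) then ((b₀ E / 2 ^ E.card : ℝ) : ℂ) * fourier n x
            else 0) := by
      intro n
      unfold bb
      push_cast
      rw [sum_mul]
      apply sum_congr rfl; intro E _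
      rw [sum_mul]
      apply sum_congr rfl; intro S _
      split_ifs
      · push_cast; rfl
      · simp
    simp_rw [h2]
    rw [sum_comm]
    rw [Complex.ofReal_sum]
    apply sum_congr rfl; intro E _
    rw [sum_comm]
    have h3 : ∀ S ∈ E.powerset, ∑ n ∈ Icc (-(H : ℤ)) H,
        (if n = lamv (Bn : ℤ) (sv E S) then ((b₀ E / 2 ^ E.card : ℝ) : ℂ) * fourier n x else 0) =
        ((b₀ E / 2 ^ E.card : ℝ) : ℂ) * fourier (lamv (Bn : ℤ) (sv E S)) x := by
      intro S _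
      rw [sum_eq_single (lamv (Bn : ℤ) (sv E S))]
      · rw [if_pos rfl]
      · intro n _ hn
        rw [if_neg hn]
      · intro hn
        exfalso
        apply hn
        rw [mem_Icc, ← abs_le, hH]
        apply abs_lamv_le
        intro j
        refine (abs_sv E S j).trans ?_
        exact_mod_cast hMn
    rw [sum_congr rfl h3, ← mul_sum, sum_signs]
    push_cast
    have : (2 : ℂ) ^ E.card ≠ 0 := pow_ne_zero _ two_ne_zero
    field_simp
  rw [h1, Complex.norm_real, Real.norm_eq_abs]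
  exact multiaffine_bound b₀ K hK _ (fun j => abs_cj _ x j)

end blockG

end Pool.Agent.Lib.MP_ceba03_an
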