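import Pool.Agent.Lib.MP_ceba03_an.BlockData

set_option autoImplicit false
set_option linter.unusedSectionVars false

open Finset MeasureTheory AddCircle

namespace Pool.Agent.Lib.MP_ceba03_an

section enum

variable {d : ℕ} (B : ℤ)

/-- Enumeration of the frequencies of a family of patterns. -/
noncomputable def enum (Es : Finset (Finset (Fin d))) {N : ℕ} (h : (pats Es).card = N)
    (j : Fin N) : ℤ :=
  lamv B (sv ((pats Es).equivFinOfCardEq h |>.symm j).1.1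
    ((pats Es).equivFinOfCardEq h |>.symm j).1.2)

lemma enum_spec (Es : Finset (Finset (Fin d))) {N : ℕ} (h : (pats Es).card = N) (j : Fin N) :
    ∃ E S : Finset (Fin d), E ∈ Es ∧ S ⊆ E ∧ enum B Es h j = lamv B (sv E S) := by
  have h1 := ((pats Es).equivFinOfCardEq h |>.symm j).2
  unfold pats at h1
  rw [mem_sigma] at h1
  exact ⟨_, _, h1.1, mem_powerset.mp h1.2, rfl⟩

lemma enum_inj (hB : 2 < B) (Es : Finset (Finset (Fin d))) {N : ℕ} (h : (pats Es).card = N) :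
    Function.Injective (enum B Es h) := by
  intro j j' hj
  have h1 := ((pats Es).equivFinOfCardEq h |>.symm j).2
  have h2 := ((pats Es).equivFinOfCardEq h |>.symm j').2
  unfold pats at h1 h2
  rw [mem_sigma] at h1 h2
  have h3 := lamv_sv_inj B hB (mem_powerset.mp h1.2) (mem_powerset.mp h2.2) hj
  have h4 : ((pats Es).equivFinOfCardEq h).symm j = ((pats Es).equivFinOfCardEq h).symm j' := by
    apply Subtype.ext
    apply Sigma.ext
    · exact h3.1
    · exact heq_of_eq h3.2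
  exact ((pats Es).equivFinOfCardEq h).symm.injective h4

lemma mem_range_enum (Es : Finset (Finset (Fin d))) {N : ℕ} (h : (pats Es).card = N)
    (E S : Finset (Fin d)) (hE : E ∈ Es) (hS : S ⊆ E) :
    lamv B (sv E S) ∈ Set.range (enum B Es h) := by
  have hmem : (⟨E, S⟩ : Σ _ : Finset (Fin d), Finset (Fin d)) ∈ pats Es := by
    unfold pats
    rw [mem_sigma]
    exact ⟨hE, mem_powerset.mpr hS⟩
  refine ⟨(pats Es).equivFinOfCardEq h ⟨_, hmem⟩, ?_⟩
  unfold enum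
  rw [Equiv.symm_apply_apply]

end enum

/-- The sum of a character over a family given by sampling. -/
lemma exists_family (p s : ℕ) (c : ℕ) (hc : 0 < c) (δ : ℝ) (hδ : 0 < δ)
    (hδ1 : δ ≤ 1)
    (h1 : 64 * Real.log (2 * 2 ^ (2 * (p + 2))) ≤ δ ^ 2 * c)
    (h3 : 128 * (c : ℝ) ≤ δ ^ 2 * ((2 * (p + 2)).choose s : ℝ)) :
    ∃ Es : Finset (Finset (Fin (2 * (p + 2)))), (∀ E ∈ Es, E.card = s) ∧ Es.card = c ∧
      ∀ J : Finset (Fin (2 * (p + 2))),
        |(∑ E ∈ Es, ∏ j ∈ E, sg J j) / c - av s (sg J)| ≤ δ := by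
  have hX : (powersetCard s (univ : Finset (Fin (2 * (p + 2))))).card = (2 * (p + 2)).choose s := by
    rw [card_powersetCard, card_univ, Fintype.card_fin]
  have hκ : (Fintype.card (Finset (Fin (2 * (p + 2)))) : ℝ) = 2 ^ (2 * (p + 2)) := by
    rw [Fintype.card_finset, Fintype.card_fin]; push_cast; rfl
  obtain ⟨Y, hYX, hYc, hY⟩ := sampling (κ := Finset (Fin (2 * (p + 2))))
    (powersetCard s (univ : Finset (Fin (2 * (p + 2))))) (fun J E => ∏ j ∈ E, sg J j)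
    (by
      intro J E
      rw [abs_prod]
      apply prod_le_one
      · intro j _; exact abs_nonneg _
      · intro j _
        unfold sg; split_ifs <;> simp)
    δ hδ hδ1 c hc (by rw [hκ]; exact h1) (by rw [hX]; exact h3)
  refine ⟨Y, fun E hE => (mem_powersetCard.mp (hYX hE)).2, hYc, fun J => ?_⟩
  have h := hY J
  rw [hX] at h
  unfold av es
  rw [Fintype.card_fin]
  exact h

lemma abs_av_le (s d : ℕ) (hs : s ≤ d) (J : Finset (Fin d)) : |av s (sg J)| ≤ 1 := by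
  unfold av es
  rw [Fintype.card_fin, abs_div]
  have hpos : (0 : ℝ) < (d.choose s : ℝ) := by exact_mod_cast Nat.choose_pos hs
  rw [abs_of_pos hpos, div_le_one hpos]
  calc |∑ E ∈ powersetCard s univ, ∏ j ∈ E, sg J j|
      ≤ ∑ E ∈ powersetCard s (univ : Finset (Fin d)), |∏ j ∈ E, sg J j| := abs_sum_le_sum_abs _ _
    _ ≤ ∑ E ∈ powersetCard s (univ : Finset (Fin d)), (1 : ℝ) := by
        apply sum_le_sum; intro E _
        rw [abs_prod]
        apply prod_le_one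
        · intro j _; exact abs_nonneg _
        · intro j _
          unfold sg; split_ifs <;> simp
    _ = (d.choose s : ℝ) := by simp

theorem block_exists (p M Bn : ℕ) (hM : 2 ≤ M) (hB : M < Bn) (η : ℝ) (hη : 0 < η)
    (cI cO : ℕ) (hcI : 0 < cI) (hcO : 0 < cO) (δ : ℝ) (hδ : 0 < δ) (hδ1 : δ ≤ 1)
    (h1 : 64 * Real.log (2 * 2 ^ (2 * (p + 2))) ≤ δ ^ 2 * cI)
    (h2 : 64 * Real.log (2 * 2 ^ (2 * (p + 2))) ≤ δ ^ 2 * cO)
    (h3 : 128 * (cI : ℝ) ≤ δ ^ 2 * ((2 * (p + 2)).choose p : ℝ))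
    (h4 : 128 * (cO : ℝ) ≤ δ ^ 2 * ((2 * (p + 2)).choose (p + 2) : ℝ)) :
    Nonempty (Block η (η * (1 - 1 / (M : ℝ)) ^ 2 / 2) (cI * 2 ^ p) (cO * 2 ^ (p + 2))
      (η * ((p : ℝ) + 4) / (4 * (1 - 1 / (M : ℝ)) ^ p))
      (1 / η * (16 / (((p : ℝ) + 2) * (p + 1)) + δ + 2 / (1 - 1 / (M : ℝ)) ^ 2 * δ +
        (2 / (1 - 1 / (M : ℝ)) ^ 2 - 2)))) := by
  obtain ⟨Is, hIc, hIn, hIa⟩ := exists_family p p cI hcI δ hδ hδ1 h1 h3
  obtain ⟨Os, hOc, hOn, hOa⟩ := exists_family p (p + 2) cO hcO δ hδ hδ1 h2 h4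
  set κ : ℝ := 1 - 1 / (M : ℝ) with hκdef
  have hMr : (2 : ℝ) ≤ M := by exact_mod_cast hM
  have hκ0 : 0 < κ := by
    rw [hκdef, sub_pos, div_lt_one (by linarith)]
    linarith
  have hκ1 : κ ≤ 1 := by
    rw [hκdef]
    have : 0 ≤ 1 / (M : ℝ) := by positivity
    linarith
  have hM1 : 1 ≤ M := by omega
  have hBz : ((M : ℕ) : ℤ) < ((Bn : ℕ) : ℤ) := by exact_mod_cast hB
  have hB2 : (2 : ℤ) < ((Bn : ℕ) : ℤ) := by
    have : 2 < Bn := by omega
    exact_mod_cast this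
  have hp2 : (0 : ℝ) < (p : ℝ) + 2 := by positivity
  set t : ℝ := η * ((p : ℝ) + 2) / (4 * κ ^ p) with ht
  have ht0 : 0 ≤ t := by positivity
  set η' : ℝ := η * κ ^ 2 / 2 with hη'
  have hη'0 : 0 < η' := by positivity
  set CZ : ℝ := ((2 * (p + 2)).choose (p + 4) : ℝ) with hCZ
  have hCZ0 : 0 < CZ := by
    rw [hCZ]
    exact_mod_cast Nat.choose_pos (by omega)
  set b₀ : Finset (Fin (2 * (p + 2))) → ℝ := fun E =>
    (if E ∈ Is then -(1 / (η * cI)) else 0) + (if E ∈ Os then 1 / (η' * cO) else 0) +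
    (if E.card = p + 4 then -(1 / (η * CZ)) else 0) with hb₀
  have hcIr : (0 : ℝ) < cI := by exact_mod_cast hcI
  have hcOr : (0 : ℝ) < cO := by exact_mod_cast hcO
  -- values of b₀
  have hbI : ∀ E ∈ Is, b₀ E = -(1 / (η * cI)) := by
    intro E hE
    have c1 := hIc E hE
    have c2 : E ∉ Os := fun h => by have := hOc E h; omega
    simp only [hb₀]
    rw [if_pos hE, if_neg c2, if_neg (by omega)]
    ring
  have hbO : ∀ E ∈ Os, b₀ E = 1 / (η' * cO) := by
    intro E hE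
    have c1 := hOc E hE
    have c2 : E ∉ Is := fun h => by have := hIc E h; omega
    simp only [hb₀]
    rw [if_neg c2, if_pos hE, if_neg (by omega)]
    ring
  have hb0 : ∀ E, E ∉ Is → E ∉ Os → b₀ E ≠ 0 → E.card = p + 4 := by
    intro E e1 e2 e3
    by_contra hne
    apply e3
    simp only [hb₀]
    rw [if_neg e1, if_neg e2, if_neg hne]
    ring
  -- the vertex bound
  have hvert : ∀ J : Finset (Fin (2 * (p + 2))),
      |∑ E : Finset (Fin (2 * (p + 2))), b₀ E * ∏ j ∈ E, sg J j| ≤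
      1 / η * (16 / (((p : ℝ) + 2) * (p + 1)) + δ + 2 / κ ^ 2 * δ + (2 / κ ^ 2 - 2)) := by
    intro J
    have e1 : ∑ E : Finset (Fin (2 * (p + 2))), b₀ E * ∏ j ∈ E, sg J j =
        -(1 / η) * ((∑ E ∈ Is, ∏ j ∈ E, sg J j) / cI) +
        1 / η' * ((∑ E ∈ Os, ∏ j ∈ E, sg J j) / cO) - 1 / η * av (p + 4) (sg J) := by
      simp only [hb₀, add_mul, sum_add_distrib, ite_mul, zero_mul]
      rw [← sum_filter, ← sum_filter, ← sum_filter]
      have f1 : (univ.filter (fun E => E ∈ Is)) = Is := by ext; simp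
      have f2 : (univ.filter (fun E => E ∈ Os)) = Os := by ext; simp
      have f3 : (univ.filter (fun E : Finset (Fin (2 * (p + 2))) => E.card = p + 4)) =
          powersetCard (p + 4) univ := by ext; simp [mem_powersetCard]
      rw [f1, f2, f3, ← mul_sum, ← mul_sum, ← mul_sum]
      unfold av es
      rw [Fintype.card_fin, ← hCZ]
      field_simp
      ring
    rw [e1]
    have a1 := hIa J
    have a2 := hOa J
    have a3 := second_diff p (by rw [Fintype.card_fin]) J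
    have a4 := abs_av_le (p + 2) (2 * (p + 2)) (by omega) J
    set A1 := (∑ E ∈ Is, ∏ j ∈ E, sg J j) / (cI : ℝ)
    set A2 := (∑ E ∈ Os, ∏ j ∈ E, sg J j) / (cO : ℝ)
    set B1 := av p (sg J)
    set B2 := av (p + 2) (sg J)
    set B3 := av (p + 4) (sg J)
    have hη'inv : 1 / η' = 1 / η * (2 / κ ^ 2) := by
      rw [hη']; field_simp
    have e2 : -(1 / η) * A1 + 1 / η' * A2 - 1 / η * B3 =
        1 / η * (-(B1 - 2 * B2 + B3) - (A1 - B1) + 2 / κ ^ 2 * (A2 - B2) +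
          (2 / κ ^ 2 - 2) * B2) := by
      rw [hη'inv]; ring
    have hkpos : 0 < 2 / κ ^ 2 := by positivity
    have hk2 : 0 ≤ 2 / κ ^ 2 - 2 := by
      rw [sub_nonneg, le_div_iff₀ (by positivity)]
      have : κ ^ 2 ≤ 1 := by nlinarith
      linarith
    rw [e2, abs_mul, abs_of_pos (by positivity : 0 < 1 / η)]
    apply mul_le_mul_of_nonneg_left _ (by positivity)
    calc |-(B1 - 2 * B2 + B3) - (A1 - B1) + 2 / κ ^ 2 * (A2 - B2) + (2 / κ ^ 2 - 2) * B2|
        ≤ |-(B1 - 2 * B2 + B3) - (A1 - B1) + 2 / κ ^ 2 * (A2 - B2)| + |(2 / κ ^ 2 - 2) * B2| :=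
          abs_add_le _ _
      _ ≤ |-(B1 - 2 * B2 + B3) - (A1 - B1)| + |2 / κ ^ 2 * (A2 - B2)| +
          |(2 / κ ^ 2 - 2) * B2| := by
          have := abs_add_le (-(B1 - 2 * B2 + B3) - (A1 - B1)) (2 / κ ^ 2 * (A2 - B2))
          linarith
      _ ≤ |-(B1 - 2 * B2 + B3)| + |A1 - B1| + |2 / κ ^ 2 * (A2 - B2)| +
          |(2 / κ ^ 2 - 2) * B2| := by
          have := abs_sub (-(B1 - 2 * B2 + B3)) (A1 - B1)
          linarith
      _ ≤ 16 / (((p : ℝ) + 2) * (p + 1)) + δ + 2 / κ ^ 2 * δ + (2 / κ ^ 2 - 2) := by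
          rw [abs_neg, abs_mul, abs_of_pos hkpos, abs_mul (2 / κ ^ 2 - 2), abs_of_nonneg hk2]
          have b1 := mul_le_mul_of_nonneg_left a2 hkpos.le
          have b2 := mul_le_mul_of_nonneg_left a4 hk2
          linarith
  have hcardI : (pats Is).card = cI * 2 ^ p := by rw [card_pats Is p hIc, hIn]
  have hcardO : (pats Os).card = cO * 2 ^ (p + 2) := by rw [card_pats Os (p + 2) hOc, hOn]
  -- bounds of the frequencies
  have hbd : ∀ E S : Finset (Fin (2 * (p + 2))), |lamv ((Bn : ℕ) : ℤ) (sv E S)| ≤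
      ((∑ j : Fin (2 * (p + 2)), M * Bn ^ (j : ℕ) : ℕ) : ℤ) := by
    intro E S
    apply abs_lamv_le
    intro j
    refine (abs_sv E S j).trans ?_
    exact_mod_cast hM1
  refine ⟨{
    H := ∑ j : Fin (2 * (p + 2)), M * Bn ^ (j : ℕ)
    F := FF p M ((Bn : ℕ) : ℤ) t
    b := bb ((Bn : ℕ) : ℤ) b₀
    i := enum ((Bn : ℕ) : ℤ) Is hcardI
    o := enum ((Bn : ℕ) : ℤ) Os hcardO
    inj := ?_
    i_le := ?_
    o_le := ?_
    F_supp := ?_
    F_i := ?_
    F_o := ?_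
    b_i := ?_
    b_o := ?_
    b_zero := ?_
    F_norm := ?_
    G_norm := ?_ }⟩
  · rw [Sum.elim_injective]
    refine ⟨enum_inj _ hB2 Is hcardI, enum_inj _ hB2 Os hcardO, ?_⟩
    intro a b hab
    obtain ⟨E, S, hE, hS, h⟩ := enum_spec ((Bn : ℕ) : ℤ) Is hcardI a
    obtain ⟨E', S', hE', hS', h'⟩ := enum_spec ((Bn : ℕ) : ℤ) Os hcardO b
    rw [h, h'] at hab
    have h5 := (lamv_sv_inj _ hB2 hS hS' hab).1
    have h6 := hIc E hE
    have h7 := hOc E' hE'
    rw [← h5] at h7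
    omega
  · intro j
    obtain ⟨E, S, hE, hS, h⟩ := enum_spec ((Bn : ℕ) : ℤ) Is hcardI j
    rw [h]; exact hbd E S
  · intro j
    obtain ⟨E, S, hE, hS, h⟩ := enum_spec ((Bn : ℕ) : ℤ) Os hcardO j
    rw [h]; exact hbd E S
  · intro n hn
    rw [← cf_apply]
    exact cf_FF_large p M Bn t n hn
  · intro j
    obtain ⟨E, S, hE, hS, h⟩ := enum_spec ((Bn : ℕ) : ℤ) Is hcardI j
    rw [h, ← cf_apply, cf_FF p M _ hM1 hBz t E S, hIc E hE]
    congr 1
    rw [← hκdef, ht]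
    field_simp
    ring
  · intro j
    obtain ⟨E, S, hE, hS, h⟩ := enum_spec ((Bn : ℕ) : ℤ) Os hcardO j
    rw [h, ← cf_apply, cf_FF p M _ hM1 hBz t E S, hOc E hE]
    congr 1
    rw [← hκdef, ht, hη']
    push_cast
    field_simp
    ring
  · intro j
    obtain ⟨E, S, hE, hS, h⟩ := enum_spec ((Bn : ℕ) : ℤ) Is hcardI j
    rw [h, bb_lamv _ hB2 b₀ E S hS, hbI E hE, hIc E hE]
    push_cast
    field_simp
  · intro j
    obtain ⟨E, S, hE, hS, h⟩ := enum_spec ((Bn : ℕ) : ℤ) Os hcardO j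
    rw [h, bb_lamv _ hB2 b₀ E S hS, hbO E hE, hOc E hE]
    push_cast
    field_simp
  · intro n hn1 hn2 hbn
    obtain ⟨E, S, hS, hn, hbE⟩ := bb_ne_zero _ b₀ n hbn
    have hE1 : E ∉ Is := fun hE => hn1 (by rw [hn]; exact mem_range_enum _ Is hcardI E S hE hS)
    have hE2 : E ∉ Os := fun hE => hn2 (by rw [hn]; exact mem_range_enum _ Os hcardO E S hE hS)
    have hEc := hb0 E hE1 hE2 hbE
    rw [hn, ← cf_apply, cf_FF p M _ hM1 hBz t E S, hEc]
    push_cast
    ring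
  · rw [norm_FF p M _ hM1 hBz t ht0, ht]
    apply le_of_eq
    field_simp
  · intro x
    exact bb_bound b₀ _ Bn M hM1 hvert _ rfl x

end Pool.Agent.Lib.MP_ceba03_an
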