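import Mathlib

set_option autoImplicit false

open MeasureTheory AddCircle

namespace Pool.Agent.Lib.MP_ceba03_an

/-- The normalised Haar measure on the circle `ℝ/ℤ`. -/
noncomputable abbrev hm : Measure UnitAddCircle := AddCircle.haarAddCircle

/-- The space `L¹` of the circle. -/
noncomputable abbrev L1T := Lp ℂ 1 hm

/-- Pairing with a continuous function. -/
noncomputable def pair (φ : C(UnitAddCircle, ℂ)) : L1T →L[ℂ] ℂ :=
  LinearMap.mkContinuous
    { toFun := fun g => ∫ t, φ t * g t ∂hm
      map_add' := by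
        intro f g
        have h1 : ∀ u : L1T, Integrable (fun t => φ t * u t) hm := by
          intro u
          have hu : Integrable (u : UnitAddCircle → ℂ) hm := L1.integrable_coeFn u
          refine hu.bdd_mul (c := ‖φ‖) φ.continuous.aestronglyMeasurable ?_
          exact Filter.Eventually.of_forall (fun t => φ.norm_coe_le_norm t)
        rw [← integral_add (h1 f) (h1 g)]
        apply integral_congr_ae
        filter_upwards [Lp.coeFn_add f g] with t ht
        rw [ht, Pi.add_apply, mul_add]
      map_smul' := by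
        intro c g
        simp only [RingHom.id_apply, smul_eq_mul]
        rw [← integral_const_mul]
        apply integral_congr_ae
        filter_upwards [Lp.coeFn_smul c g] with t ht
        rw [ht, Pi.smul_apply, smul_eq_mul]
        ring }
    ‖φ‖
    (by
      intro g
      simp only [LinearMap.coe_mk, AddHom.coe_mk]
      have hg : Integrable (g : UnitAddCircle → ℂ) hm := L1.integrable_coeFn g
      calc ‖∫ t, φ t * g t ∂hm‖ ≤ ∫ t, ‖φ t * g t‖ ∂hm := norm_integral_le_integral_norm _
        _ ≤ ∫ t, ‖φ‖ * ‖g t‖ ∂hm := by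
            apply integral_mono_of_nonneg
            · exact Filter.Eventually.of_forall (fun t => norm_nonneg _)
            · exact hg.norm.const_mul _
            · refine Filter.Eventually.of_forall (fun t => ?_)
              simp only [norm_mul]
              exact mul_le_mul_of_nonneg_right (φ.norm_coe_le_norm t) (norm_nonneg _)
        _ = ‖φ‖ * ‖g‖ := by
            rw [integral_const_mul, L1.norm_eq_integral_norm])

lemma pair_apply (φ : C(UnitAddCircle, ℂ)) (g : L1T) : pair φ g = ∫ t, φ t * g t ∂hm := rfl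

lemma norm_pair_le (φ : C(UnitAddCircle, ℂ)) : ‖pair φ‖ ≤ ‖φ‖ :=
  LinearMap.mkContinuous_norm_le _ (norm_nonneg _) _

/-- The `n`-th Fourier coefficient as a continuous functional on `L¹`. -/
noncomputable def coeffL (n : ℤ) : L1T →L[ℂ] ℂ := pair (fourier (-n))

lemma coeffL_apply (n : ℤ) (g : L1T) : coeffL n g = fourierCoeff (g : UnitAddCircle → ℂ) n := by
  simp only [coeffL, pair_apply, fourierCoeff, smul_eq_mul]

/-- The product of two sequences of Fourier coefficients of `L¹` functions is again one. -/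
lemma conv_exists (f g : L1T) : ∃ h : L1T, ∀ n : ℤ,
    fourierCoeff (h : UnitAddCircle → ℂ) n =
      fourierCoeff (f : UnitAddCircle → ℂ) n * fourierCoeff (g : UnitAddCircle → ℂ) n := by
  have hf : Integrable (f : UnitAddCircle → ℂ) hm := L1.integrable_coeFn f
  have hg : Integrable (g : UnitAddCircle → ℂ) hm := L1.integrable_coeFn g
  set c : UnitAddCircle → ℂ := convolution f g (ContinuousLinearMap.mul ℂ ℂ) hm with hc
  have hcint : Integrable c hm := hf.integrable_convolution (ContinuousLinearMap.mul ℂ ℂ) hg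
  refine ⟨hcint.toL1 c, fun n => ?_⟩
  have h1 : fourierCoeff ((hcint.toL1 c : L1T) : UnitAddCircle → ℂ) = fourierCoeff c :=
    fourierCoeff_congr_ae hcint.coeFn_toL1
  rw [h1]
  have h2 : ∀ t, fourier (-n) t • c t =
      convolution (fun s => fourier (-n) s * f s) (fun s => fourier (-n) s * g s)
        (ContinuousLinearMap.mul ℂ ℂ) hm t := by
    intro t
    simp only [hc, convolution, ContinuousLinearMap.mul_apply', smul_eq_mul]
    rw [← integral_const_mul]
    congr 1
    ext s
    have : (fourier (-n) t : ℂ) = fourier (-n) s * fourier (-n) (t - s) := by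
      simp only [fourier_apply]
      rw [← Circle.coe_mul, ← AddCircle.toCircle_add, ← smul_add, add_sub_cancel]
    rw [this]
    ring
  unfold fourierCoeff
  simp_rw [h2]
  rw [integral_convolution]
  · simp only [ContinuousLinearMap.mul_apply', smul_eq_mul]
  · exact hf.fourier_smul (-n)
  · exact hg.fourier_smul (-n)

lemma fourierCoeff_fourierLp (p : ENNReal) [Fact (1 ≤ p)] (n m : ℤ) :
    fourierCoeff ((fourierLp p n : Lp ℂ p hm) : UnitAddCircle → ℂ) m = if m = n then 1 else 0 := by
  rw [fourierCoeff_congr_ae (coeFn_fourierLp p n), fourierCoeff_fourier, Pi.single_apply]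

/-- Riemann-Lebesgue on the circle. -/
lemma riemann_lebesgue (f : L1T) (ε : ℝ) (hε : 0 < ε) :
    ∃ K : ℕ, ∀ n : ℤ, (K : ℤ) < |n| → ‖fourierCoeff (f : UnitAddCircle → ℂ) n‖ < ε := by
  have hmem : f ∈ (Submodule.span ℂ (Set.range (@fourierLp (1 : ℝ) _ 1 _))).topologicalClosure := by
    rw [span_fourierLp_closure_eq_top (by norm_num)]
    trivial
  have hmem2 : f ∈ closure ((Submodule.span ℂ (Set.range (@fourierLp (1 : ℝ) _ 1 _)) :
      Submodule ℂ (Lp ℂ 1 hm)) : Set (Lp ℂ 1 hm)) := hmem
  rw [Metric.mem_closure_iff] at hmem2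
  obtain ⟨p, hp, hdist⟩ := hmem2 ε hε
  -- the coefficients of `p` vanish for large `|n|`
  have hvan : ∀ p ∈ Submodule.span ℂ (Set.range (@fourierLp (1 : ℝ) _ 1 _)), ∃ K : ℕ,
      ∀ n : ℤ, (K : ℤ) < |n| → coeffL n p = 0 := by
    intro p hp
    induction hp using Submodule.span_induction with
    | mem x hx =>
      obtain ⟨k, rfl⟩ := hx
      refine ⟨k.natAbs, fun n hn => ?_⟩
      rw [coeffL_apply, fourierCoeff_fourierLp, if_neg]
      rintro rfl
      simp at hn
    | zero => exact ⟨0, fun n _ => map_zero _⟩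
    | add x y _ _ hx hy =>
      obtain ⟨K1, h1⟩ := hx
      obtain ⟨K2, h2⟩ := hy
      refine ⟨max K1 K2, fun n hn => ?_⟩
      rw [map_add, h1 n (by have := le_max_left K1 K2; omega),
        h2 n (by have := le_max_right K1 K2; omega), add_zero]
    | smul a x _ hx =>
      obtain ⟨K1, h1⟩ := hx
      exact ⟨K1, fun n hn => by rw [map_smul, h1 n hn, smul_zero]⟩
  obtain ⟨K, hK⟩ := hvan p hp
  refine ⟨K, fun n hn => ?_⟩
  have h1 : coeffL n f = coeffL n (f - p) := by rw [map_sub, hK n hn, sub_zero]
  rw [← coeffL_apply, h1]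
  have h2 : ‖coeffL n‖ ≤ 1 := by
    have := norm_pair_le (fourier (-n) : C(UnitAddCircle, ℂ))
    rwa [fourier_norm] at this
  calc ‖coeffL n (f - p)‖ ≤ ‖coeffL n‖ * ‖f - p‖ := (coeffL n).le_opNorm _
    _ ≤ 1 * ‖f - p‖ := mul_le_mul_of_nonneg_right h2 (norm_nonneg _)
    _ < ε := by rw [one_mul, ← dist_eq_norm]; exact hdist

end Pool.Agent.Lib.MP_ceba03_an
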