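import Pool.Agent.Lib.MP_ceba03_an.BlockExists

set_option autoImplicit false

open Finset MeasureTheory AddCircle

namespace Pool.Agent.Lib.MP_ceba03_an

/-! ### Numerical facts -/

lemma growth_aux (q : ℕ) (hq : 66 ≤ q) : 512 * (3 * q + 2) ^ 5 ≤ 2 ^ q := by
  induction q, hq using Nat.le_induction with
  | base => norm_num
  | succ q hq ih =>
    have h1 : 10 * (3 * (q + 1) + 2) ≤ 11 * (3 * q + 2) := by omega
    have h2 : (10 * (3 * (q + 1) + 2)) ^ 5 ≤ (11 * (3 * q + 2)) ^ 5 := Nat.pow_le_pow_left h1 5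
    rw [mul_pow, mul_pow] at h2
    have h3 : (3 * (q + 1) + 2) ^ 5 ≤ 2 * (3 * q + 2) ^ 5 := by
      norm_num at h2 ⊢
      omega
    have h4 : 2 ^ (q + 1) = 2 * 2 ^ q := by rw [pow_succ]; ring
    rw [h4]
    calc 512 * (3 * (q + 1) + 2) ^ 5 ≤ 512 * (2 * (3 * q + 2) ^ 5) := Nat.mul_le_mul_left _ h3
      _ = 2 * (512 * (3 * q + 2) ^ 5) := by ring
      _ ≤ 2 * 2 ^ q := Nat.mul_le_mul_left _ ih

lemma growth (m : ℕ) (hm : 200 ≤ m) : 512 * m ^ 5 ≤ 2 ^ (m / 3) := by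
  have h1 := growth_aux (m / 3) (by omega)
  have h2 : m ≤ 3 * (m / 3) + 2 := by omega
  have h3 := Nat.pow_le_pow_left h2 5
  omega

lemma choose_lower (m : ℕ) (hm : 200 ≤ m) :
    128 * 2 ^ m * m ^ 4 ≤ (2 * m).choose (m - 2) ∧ 128 * 2 ^ m * m ^ 4 ≤ (2 * m).choose m := by
  have h1 := Nat.four_pow_le_two_mul_self_mul_centralBinom m (by omega)
  rw [Nat.centralBinom_eq_two_mul_choose] at h1
  have h2 := growth m hm
  have h3 : 512 * m ^ 5 ≤ 2 ^ m := h2.trans (Nat.pow_le_pow_right (by norm_num) (Nat.div_le_self _ _))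
  -- the relation between the two binomial coefficients
  obtain ⟨k, rfl⟩ : ∃ k, m = k + 2 := ⟨m - 2, by omega⟩
  have e1 := Nat.choose_succ_right_eq (2 * (k + 2)) (k + 1)
  have e2 := Nat.choose_succ_right_eq (2 * (k + 2)) k
  have s1 : 2 * (k + 2) - (k + 1) = k + 3 := by omega
  have s2 : 2 * (k + 2) - k = k + 4 := by omega
  rw [s1] at e1
  rw [s2] at e2
  have s3 : k + 2 - 2 = k := by omega
  rw [s3]
  set C2 := (2 * (k + 2)).choose (k + 2) with hC2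
  set C1 := (2 * (k + 2)).choose (k + 1) with hC1
  set C0 := (2 * (k + 2)).choose k with hC0
  -- e1 : C2 * (k+1+1) = C1 * (k+3);  e2 : C1 * (k+1) = C0 * (k+4)
  have hk : 198 ≤ k := by omega
  have h4 : C2 ≤ 2 * C0 := by
    have h5 : C2 * ((k + 2) * (k + 1)) = C0 * ((k + 4) * (k + 3)) := by
      calc C2 * ((k + 2) * (k + 1)) = (C2 * (k + 1 + 1)) * (k + 1) := by ring
        _ = (C1 * (k + 3)) * (k + 1) := by rw [e1]
        _ = (C1 * (k + 1)) * (k + 3) := by ring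
        _ = (C0 * (k + 4)) * (k + 3) := by rw [e2]
        _ = C0 * ((k + 4) * (k + 3)) := by ring
    have h6 : (k + 4) * (k + 3) ≤ 2 * ((k + 2) * (k + 1)) := by nlinarith
    have h7 : C2 * ((k + 2) * (k + 1)) ≤ (2 * C0) * ((k + 2) * (k + 1)) := by
      rw [h5]
      calc C0 * ((k + 4) * (k + 3)) ≤ C0 * (2 * ((k + 2) * (k + 1))) := Nat.mul_le_mul_left _ h6
        _ = (2 * C0) * ((k + 2) * (k + 1)) := by ring
    exact Nat.le_of_mul_le_mul_right h7 (by positivity)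
  have h8 : (4 : ℕ) ^ (k + 2) = 2 ^ (k + 2) * 2 ^ (k + 2) := by
    rw [← mul_pow]
    norm_num
  have h9 : 512 * (k + 2) ^ 5 * 2 ^ (k + 2) ≤ 2 * (k + 2) * C2 := by
    calc 512 * (k + 2) ^ 5 * 2 ^ (k + 2) ≤ 2 ^ (k + 2) * 2 ^ (k + 2) :=
          Nat.mul_le_mul_right _ h3
      _ = 4 ^ (k + 2) := h8.symm
      _ ≤ _ := h1
  have h10 : 256 * 2 ^ (k + 2) * (k + 2) ^ 4 ≤ C2 := by
    have h11 : (2 * (k + 2)) * (256 * 2 ^ (k + 2) * (k + 2) ^ 4) ≤ (2 * (k + 2)) * C2 := by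
      calc (2 * (k + 2)) * (256 * 2 ^ (k + 2) * (k + 2) ^ 4)
          = 512 * (k + 2) ^ 5 * 2 ^ (k + 2) := by ring
        _ ≤ _ := h9
    exact Nat.le_of_mul_le_mul_left h11 (by positivity)
  have h12 : 256 * 2 ^ (k + 2) * (k + 2) ^ 4 = 2 * (128 * 2 ^ (k + 2) * (k + 2) ^ 4) := by ring
  constructor
  · omega
  · omega

lemma log_bound (m : ℕ) (hm : 200 ≤ m) (c : ℕ) (hc : 2 ^ (m / 3) ≤ c) :
    64 * Real.log (2 * 2 ^ (2 * m)) ≤ (1 / (m : ℝ) ^ 2) ^ 2 * c := by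
  have hmr : (200 : ℝ) ≤ m := by exact_mod_cast hm
  have h1 : Real.log (2 * 2 ^ (2 * m)) = (2 * m + 1 : ℕ) * Real.log 2 := by
    rw [← pow_succ', Real.log_pow]
  have h2 : Real.log 2 ≤ 1 := by
    have := Real.log_two_lt_d9
    linarith
  have h3 : (512 : ℝ) * m ^ 5 ≤ c := by
    exact_mod_cast (growth m hm).trans hc
  rw [h1]
  have h4 : 64 * (((2 * m + 1 : ℕ) : ℝ) * Real.log 2) ≤ 64 * (3 * m) := by
    have h5 : ((2 * m + 1 : ℕ) : ℝ) ≤ 3 * m := by push_cast; linarith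
    have h6 : ((2 * m + 1 : ℕ) : ℝ) * Real.log 2 ≤ (3 * m) * 1 :=
      mul_le_mul h5 h2 (Real.log_nonneg (by norm_num)) (by positivity)
    linarith
  refine h4.trans ?_
  rw [div_pow, one_pow, ← pow_mul, one_div, inv_mul_eq_div, le_div_iff₀ (by positivity)]
  have h6 : (64 * (3 * (m : ℝ))) * (m : ℝ) ^ (2 * 2) = 192 * (m : ℝ) ^ 5 := by ring
  rw [h6]
  have h7 : (0 : ℝ) ≤ (m : ℝ) ^ 5 := by positivity
  linarith

/-! ### The sequences -/

/-- The dimensions. -/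
def ls : ℕ → ℕ
  | 0 => 200
  | (k + 1) => ls k + ls k / 2

lemma ls_ge (k : ℕ) : 200 ≤ ls k := by
  induction k with
  | zero => exact le_rfl
  | succ k ih =>
    change 200 ≤ ls k + ls k / 2
    omega

lemma ls_succ (k : ℕ) : ls (k + 1) = ls k + ls k / 2 := rfl

/-- The shrinking factor. -/
noncomputable def kp (k : ℕ) : ℝ := 1 - 1 / (((ls (k + 1)) ^ 2 : ℕ) : ℝ)

lemma kp_facts (k : ℕ) : 0 < kp k ∧ kp k ≤ 1 ∧
    1 - 1 / ((ls (k + 1) : ℝ)) ^ 2 = kp k ∧ 999 / 1000 ≤ kp k := by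
  have h := ls_ge (k + 1)
  have hr : (200 : ℝ) ≤ ls (k + 1) := by exact_mod_cast h
  have h1 : 1 - 1 / ((ls (k + 1) : ℝ)) ^ 2 = kp k := by unfold kp; push_cast; rfl
  have h2 : 1 / ((ls (k + 1) : ℝ)) ^ 2 ≤ 1 / 1000 := by
    apply one_div_le_one_div_of_le (by norm_num)
    nlinarith
  have h3 : 0 ≤ 1 / ((ls (k + 1) : ℝ)) ^ 2 := by positivity
  refine ⟨?_, ?_, h1, ?_⟩
  · rw [← h1]; linarith
  · rw [← h1]; linarith
  · rw [← h1]; linarith

/-- The values of the coefficients. -/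
noncomputable def et : ℕ → ℝ
  | 0 => 1
  | (k + 1) => et k * (kp k) ^ 2 / 2

lemma et_succ (k : ℕ) : et (k + 1) = et k * (kp k) ^ 2 / 2 := rfl

lemma et_pos (k : ℕ) : 0 < et k := by
  induction k with
  | zero => exact one_pos
  | succ k ih =>
    rw [et_succ]
    have := (kp_facts k).1
    positivity

/-- The `L¹` bounds. -/
noncomputable def al (k : ℕ) : ℝ :=
  et k * (((ls (k + 1) - 2 : ℕ) : ℝ) + 4) / (4 * (kp k) ^ (ls (k + 1) - 2))

/-- The sup-norm bounds. -/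
noncomputable def ga (k : ℕ) : ℝ :=
  1 / et k * (16 / ((((ls (k + 1) - 2 : ℕ) : ℝ) + 2) * (((ls (k + 1) - 2 : ℕ) : ℝ) + 1)) +
    1 / (ls (k + 1) : ℝ) ^ 2 + 2 / (kp k) ^ 2 * (1 / (ls (k + 1) : ℝ) ^ 2) +
    (2 / (kp k) ^ 2 - 2))

lemma block_k (k : ℕ) :
    Nonempty (Block (et k) (et (k + 1)) (4 ^ ls k) (4 ^ ls (k + 1)) (al k) (ga k)) := by
  have hl := ls_ge k
  have hm := ls_ge (k + 1)
  have hs := ls_succ k
  set m := ls (k + 1) with hmdef
  set l := ls k with hldef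
  have hmr : (200 : ℝ) ≤ m := by exact_mod_cast hm
  have hch := choose_lower m hm
  have hcI : 2 ^ (m / 3) ≤ 2 ^ (2 * l + 2 - m) := Nat.pow_le_pow_right (by norm_num) (by omega)
  have hcI2 : (2 : ℕ) ^ (2 * l + 2 - m) ≤ 2 ^ m := Nat.pow_le_pow_right (by norm_num) (by omega)
  have hcO : 2 ^ (m / 3) ≤ 2 ^ m := Nat.pow_le_pow_right (by norm_num) (by omega)
  have hp2 : m - 2 + 2 = m := by omega
  have e3 : 128 * (((2 ^ (2 * l + 2 - m) : ℕ)) : ℝ) ≤
      (1 / (m : ℝ) ^ 2) ^ 2 * ((2 * (m - 2 + 2)).choose (m - 2) : ℝ) := by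
    rw [hp2, div_pow, one_pow, ← pow_mul, one_div, inv_mul_eq_div, le_div_iff₀ (by positivity)]
    have h1 : 128 * 2 ^ (2 * l + 2 - m) * m ^ 4 ≤ (2 * m).choose (m - 2) :=
      le_trans (Nat.mul_le_mul_right _ (Nat.mul_le_mul_left _ hcI2)) hch.1
    exact_mod_cast h1
  have e4 : 128 * (((2 ^ m : ℕ)) : ℝ) ≤
      (1 / (m : ℝ) ^ 2) ^ 2 * ((2 * (m - 2 + 2)).choose (m - 2 + 2) : ℝ) := by
    rw [hp2, div_pow, one_pow, ← pow_mul, one_div, inv_mul_eq_div, le_div_iff₀ (by positivity)]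
    exact_mod_cast hch.2
  have hδ1 : 1 / (m : ℝ) ^ 2 ≤ 1 := by
    rw [div_le_one (by positivity)]
    nlinarith
  have hB := block_exists (m - 2) (m ^ 2) (m ^ 2 + 1) (by nlinarith) (by omega) (et k) (et_pos k)
    (2 ^ (2 * l + 2 - m)) (2 ^ m) (by positivity) (by positivity) (1 / (m : ℝ) ^ 2)
    (by positivity) hδ1
    (by rw [hp2]; exact log_bound m hm _ hcI) (by rw [hp2]; exact log_bound m hm _ hcO) e3 e4
  have hkp : 1 - 1 / (((m ^ 2 : ℕ)) : ℝ) = kp k := rfl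
  rw [hkp] at hB
  have n1 : 2 ^ (2 * l + 2 - m) * 2 ^ (m - 2) = 4 ^ l := by
    rw [← pow_add]
    have : 2 * l + 2 - m + (m - 2) = 2 * l := by omega
    rw [this, pow_mul]
    norm_num
  have n2 : 2 ^ m * 2 ^ (m - 2 + 2) = 4 ^ m := by
    rw [hp2, ← pow_add, ← two_mul, pow_mul]
    norm_num
  rw [n1, n2] at hB
  exact hB

/-! ### Summability -/

lemma kp_pow (k : ℕ) : 1 / 2 ≤ (kp k) ^ (ls (k + 1) - 2) := by
  have hm := ls_ge (k + 1)
  have hmr : (200 : ℝ) ≤ ls (k + 1) := by exact_mod_cast hm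
  obtain ⟨h0, h1, h2, h3⟩ := kp_facts k
  have hb := one_add_mul_le_pow (a := -(1 / ((ls (k + 1) : ℝ)) ^ 2)) (by linarith) (ls (k + 1) - 2)
  have h4 : 1 + -(1 / ((ls (k + 1) : ℝ)) ^ 2) = kp k := by rw [← h2]; ring
  rw [h4] at hb
  refine le_trans ?_ hb
  have h5 : ((ls (k + 1) - 2 : ℕ) : ℝ) ≤ ls (k + 1) := by
    exact_mod_cast Nat.sub_le _ _
  have h6 : ((ls (k + 1) - 2 : ℕ) : ℝ) * (1 / ((ls (k + 1) : ℝ)) ^ 2) ≤ 1 / 2 := by
    rw [mul_one_div, div_le_div_iff₀ (by positivity) (by norm_num)]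
    nlinarith
  linarith

lemma al_le (k : ℕ) : al k ≤ et k * ls (k + 1) := by
  have hm := ls_ge (k + 1)
  have hmr : (200 : ℝ) ≤ ls (k + 1) := by exact_mod_cast hm
  have h1 := kp_pow k
  have h2 := et_pos k
  unfold al
  have h5 : ((ls (k + 1) - 2 : ℕ) : ℝ) ≤ ls (k + 1) := by
    exact_mod_cast Nat.sub_le _ _
  rw [div_le_iff₀ (by positivity)]
  calc et k * (((ls (k + 1) - 2 : ℕ) : ℝ) + 4) ≤ et k * (2 * ls (k + 1)) := by
        apply mul_le_mul_of_nonneg_left _ h2.le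
        linarith
    _ = et k * ls (k + 1) * (4 * (1 / 2)) := by ring
    _ ≤ et k * ls (k + 1) * (4 * kp k ^ (ls (k + 1) - 2)) := by
        apply mul_le_mul_of_nonneg_left _ (by positivity)
        linarith

lemma al_nonneg (k : ℕ) : 0 ≤ al k := by
  have h1 := kp_pow k
  have h2 := et_pos k
  unfold al
  positivity

lemma prod_le_geo (k : ℕ) : et k * ls (k + 1) ≤ et 0 * ls 1 * (3 / 4) ^ k := by
  induction k with
  | zero => simp
  | succ k ih =>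
    have h1 : (ls (k + 1 + 1) : ℝ) ≤ 3 / 2 * ls (k + 1) := by
      have : 2 * ls (k + 1 + 1) ≤ 3 * ls (k + 1) := by
        have := ls_succ (k + 1)
        omega
      have h : (2 * ls (k + 1 + 1) : ℝ) ≤ 3 * ls (k + 1) := by exact_mod_cast this
      linarith
    have h2 : et (k + 1) ≤ et k / 2 := by
      rw [et_succ]
      have h3 := et_pos k
      obtain ⟨a, b, _, _⟩ := kp_facts k
      have : kp k ^ 2 ≤ 1 := by nlinarith
      nlinarith
    calc et (k + 1) * ls (k + 1 + 1) ≤ (et k / 2) * (3 / 2 * ls (k + 1)) := by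
          apply mul_le_mul h2 h1 (by positivity)
          have := et_pos k
          positivity
      _ = (et k * ls (k + 1)) * (3 / 4) := by ring
      _ ≤ (et 0 * ls 1 * (3 / 4) ^ k) * (3 / 4) := by
          apply mul_le_mul_of_nonneg_right ih (by norm_num)
      _ = et 0 * ls 1 * (3 / 4) ^ (k + 1) := by rw [pow_succ]; ring

lemma summable_al : Summable al := by
  apply Summable.of_nonneg_of_le al_nonneg (fun k => (al_le k).trans (prod_le_geo k))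
  exact (summable_geometric_of_lt_one (by norm_num) (by norm_num)).mul_left _

lemma ga_le (k : ℕ) : ga k ≤ 45 / (et k * (ls (k + 1) : ℝ) ^ 2) := by
  have hm := ls_ge (k + 1)
  have hmr : (200 : ℝ) ≤ ls (k + 1) := by exact_mod_cast hm
  obtain ⟨h0, h1, h2, h3⟩ := kp_facts k
  have he := et_pos k
  unfold ga
  set m : ℝ := (ls (k + 1) : ℝ) with hmdef
  have hsub : ((ls (k + 1) - 2 : ℕ) : ℝ) = m - 2 := by
    rw [Nat.cast_sub (by omega)]; push_cast; rfl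
  rw [hsub]
  have hm2 : (0 : ℝ) < m ^ 2 := by positivity
  have a1 : 16 / ((m - 2 + 2) * (m - 2 + 1)) ≤ 32 / m ^ 2 := by
    rw [div_le_div_iff₀ (by nlinarith) hm2]
    nlinarith
  have hk2 : 1 / 2 ≤ kp k ^ 2 := by nlinarith
  have a2 : 2 / kp k ^ 2 ≤ 4 := by
    rw [div_le_iff₀ (by positivity)]
    linarith
  have a3 : 2 / kp k ^ 2 - 2 ≤ 8 / m ^ 2 := by
    have b1 : 1 - kp k ^ 2 ≤ 2 / m ^ 2 := by
      have : kp k ^ 2 = 1 - 2 * (1 / m ^ 2) + (1 / m ^ 2) ^ 2 := by rw [← h2]; ring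
      rw [this]
      have c : 0 ≤ (1 / m ^ 2) ^ 2 := by positivity
      have c2 : 2 / m ^ 2 = 2 * (1 / m ^ 2) := by ring
      rw [c2]; linarith
    have b2 : 2 / kp k ^ 2 - 2 = (2 / kp k ^ 2) * (1 - kp k ^ 2) := by
      field_simp
    rw [b2]
    calc (2 / kp k ^ 2) * (1 - kp k ^ 2) ≤ 4 * (2 / m ^ 2) := by
          apply mul_le_mul a2 b1 _ (by norm_num)
          nlinarith
      _ = 8 / m ^ 2 := by ring
  have a4 : 2 / kp k ^ 2 * (1 / m ^ 2) ≤ 4 / m ^ 2 := by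
    calc 2 / kp k ^ 2 * (1 / m ^ 2) ≤ 4 * (1 / m ^ 2) :=
          mul_le_mul_of_nonneg_right a2 (by positivity)
      _ = 4 / m ^ 2 := by ring
  have a5 : 16 / ((m - 2 + 2) * (m - 2 + 1)) + 1 / m ^ 2 + 2 / kp k ^ 2 * (1 / m ^ 2) +
      (2 / kp k ^ 2 - 2) ≤ 45 / m ^ 2 := by
    have : 45 / m ^ 2 = 32 / m ^ 2 + 1 / m ^ 2 + 4 / m ^ 2 + 8 / m ^ 2 := by ring
    rw [this]
    linarith
  calc 1 / et k * (16 / ((m - 2 + 2) * (m - 2 + 1)) + 1 / m ^ 2 + 2 / kp k ^ 2 * (1 / m ^ 2) +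
      (2 / kp k ^ 2 - 2)) ≤ 1 / et k * (45 / m ^ 2) :=
        mul_le_mul_of_nonneg_left a5 (by positivity)
    _ = 45 / (et k * m ^ 2) := by field_simp

lemma ga_nonneg (k : ℕ) : 0 ≤ ga k := by
  have hm := ls_ge (k + 1)
  obtain ⟨h0, h1, h2, h3⟩ := kp_facts k
  have he := et_pos k
  unfold ga
  have hk : 0 ≤ 2 / kp k ^ 2 - 2 := by
    rw [sub_nonneg, le_div_iff₀ (by positivity)]
    nlinarith
  positivity

lemma inv_geo (k : ℕ) : 45 / (et k * (ls (k + 1) : ℝ) ^ 2) ≤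
    45 / (et 0 * (ls 1 : ℝ) ^ 2) * (19 / 20) ^ k := by
  induction k with
  | zero => simp
  | succ k ih =>
    have hm := ls_ge (k + 1)
    have hmr : (200 : ℝ) ≤ ls (k + 1) := by exact_mod_cast hm
    have he := et_pos k
    obtain ⟨h0, h1, h2, h3⟩ := kp_facts k
    have h4 : (149 / 100 : ℝ) * ls (k + 1) ≤ ls (k + 1 + 1) := by
      have : 3 * ls (k + 1) ≤ 2 * ls (k + 1 + 1) + 1 := by
        have := ls_succ (k + 1)
        omega
      have h : (3 * ls (k + 1) : ℝ) ≤ 2 * ls (k + 1 + 1) + 1 := by exact_mod_cast this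
      linarith
    have h5 : (999 / 1000 : ℝ) ^ 2 ≤ kp k ^ 2 := by
      apply pow_le_pow_left₀ (by norm_num) h3
    have h6 : et k * (ls (k + 1) : ℝ) ^ 2 * (20 / 19) ≤ et (k + 1) * (ls (k + 1 + 1) : ℝ) ^ 2 := by
      have h7 : ((149 / 100 : ℝ) * ls (k + 1)) ^ 2 ≤ (ls (k + 1 + 1) : ℝ) ^ 2 :=
        pow_le_pow_left₀ (by positivity) h4 2
      rw [et_succ]
      calc et k * (ls (k + 1) : ℝ) ^ 2 * (20 / 19)
          ≤ (et k * (999 / 1000 : ℝ) ^ 2 / 2) * ((149 / 100 : ℝ) * ls (k + 1)) ^ 2 := by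
            have : 0 ≤ et k * (ls (k + 1) : ℝ) ^ 2 := by positivity
            have h8 : (et k * (999 / 1000 : ℝ) ^ 2 / 2) * ((149 / 100 : ℝ) * ls (k + 1)) ^ 2 =
              (et k * (ls (k + 1) : ℝ) ^ 2) * ((999 / 1000) ^ 2 / 2 * (149 / 100) ^ 2) := by ring
            rw [h8]
            apply mul_le_mul_of_nonneg_left _ this
            norm_num
        _ ≤ (et k * kp k ^ 2 / 2) * (ls (k + 1 + 1) : ℝ) ^ 2 := by
            apply mul_le_mul _ h7 (by positivity) (by positivity)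
            apply div_le_div_of_nonneg_right _ (by norm_num)
            exact mul_le_mul_of_nonneg_left h5 he.le
    have hpos : 0 < et k * (ls (k + 1) : ℝ) ^ 2 := by positivity
    calc 45 / (et (k + 1) * (ls (k + 1 + 1) : ℝ) ^ 2)
        ≤ 45 / (et k * (ls (k + 1) : ℝ) ^ 2 * (20 / 19)) := by
          apply div_le_div_of_nonneg_left (by norm_num) (by positivity) h6
      _ = 45 / (et k * (ls (k + 1) : ℝ) ^ 2) * (19 / 20) := by field_simp
      _ ≤ (45 / (et 0 * (ls 1 : ℝ) ^ 2) * (19 / 20) ^ k) * (19 / 20) := by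
          apply mul_le_mul_of_nonneg_right ih (by norm_num)
      _ = 45 / (et 0 * (ls 1 : ℝ) ^ 2) * (19 / 20) ^ (k + 1) := by rw [pow_succ]; ring

lemma summable_ga : Summable ga := by
  apply Summable.of_nonneg_of_le ga_nonneg (fun k => (ga_le k).trans (inv_geo k))
  exact (summable_geometric_of_lt_one (by norm_num) (by norm_num)).mul_left _

/-- The blocks. -/
noncomputable def blocks (k : ℕ) :
    Block (et k) (et (k + 1)) (4 ^ ls k) (4 ^ ls (k + 1)) (al k) (ga k) := (block_k k).some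

end Pool.Agent.Lib.MP_ceba03_an
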