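import Mathlib

set_option autoImplicit false

open Finset Polynomial

namespace Pool.Agent.Lib.MP_ceba03_an

lemma mul_le_choose (m l : ℕ) (h : l ≤ m) : l * (m - l) ≤ m.choose l := by
  induction m generalizing l with
  | zero => simp at h; simp [h]
  | succ m ih =>
    rcases Nat.eq_zero_or_pos l with h0 | h0
    · simp [h0]
    rcases Nat.lt_or_ge m l with h1 | h1
    · have : l = m + 1 := by omega
      subst this; simp
    -- now 1 ≤ l ≤ m
    obtain ⟨k, rfl⟩ : ∃ k, l = k + 1 := ⟨l - 1, by omega⟩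
    rw [Nat.choose_succ_succ]
    have i1 := ih k (by omega)
    have i2 := ih (k + 1) h1
    obtain ⟨d, rfl⟩ : ∃ d, m = k + 1 + d := ⟨m - (k + 1), by omega⟩
    have e1 : k + 1 + d - k = d + 1 := by omega
    have e2 : k + 1 + d - (k + 1) = d := by omega
    have e3 : k + 1 + d + 1 - (k + 1) = d + 1 := by omega
    rw [e1] at i1
    rw [e2] at i2
    rw [e3]
    -- goal : (k+1)*(d+1) ≤ choose (k+1+d) k + choose (k+1+d) (k+1)
    rcases Nat.eq_zero_or_pos k with hk | hk
    · subst hk
      simp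
      omega
    · rcases Nat.eq_zero_or_pos d with hd | hd
      · subst hd
        simp
      · nlinarith [Nat.mul_le_mul hk hd]

lemma sq_choose_le (m l : ℕ) : m.choose l * m.choose l ≤ (2 * m).choose (2 * l) := by
  rw [two_mul m, Nat.add_choose_eq]
  have hmem : (l, l) ∈ antidiagonal (2 * l) := by
    rw [HasAntidiagonal.mem_antidiagonal]; ring
  exact Finset.single_le_sum (f := fun ij : ℕ × ℕ => m.choose ij.1 * m.choose ij.2)
    (fun _ _ => Nat.zero_le _) hmem

/-- The key binomial inequality. -/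
lemma choose_key (p i : ℕ) :
    (p + 2) * (p + 1) * p.choose i ≤ (2 * (p + 2)).choose (2 * (i + 1)) := by
  rcases Nat.lt_or_ge p i with h | h
  · rw [Nat.choose_eq_zero_of_lt h]; simp
  · have h1 := Nat.add_one_mul_choose_eq (p + 1) i
    have h2 := Nat.choose_mul_succ_eq p i
    have h3 := mul_le_choose (p + 2) (i + 1) (by omega)
    have h4 := sq_choose_le (p + 2) (i + 1)
    have e1 : p + 2 - (i + 1) = p + 1 - i := by omega
    rw [e1] at h3
    calc (p + 2) * (p + 1) * p.choose i = (p + 2) * (p.choose i * (p + 1)) := by ring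
      _ = (p + 2) * ((p + 1).choose i * (p + 1 - i)) := by rw [h2]
      _ = ((p + 1 + 1) * (p + 1).choose i) * (p + 1 - i) := by ring
      _ = ((p + 2).choose (i + 1) * (i + 1)) * (p + 1 - i) := by rw [h1]
      _ = (p + 2).choose (i + 1) * ((i + 1) * (p + 1 - i)) := by ring
      _ ≤ (p + 2).choose (i + 1) * (p + 2).choose (i + 1) := Nat.mul_le_mul_left _ h3
      _ ≤ _ := h4

lemma abs_coeff_one_sub (p k : ℕ) : |((1 - X : ℝ[X]) ^ p).coeff k| = (p.choose k : ℝ) := by
  have h1 : (1 - X : ℝ[X]) = C (-1) * (X + C (-1)) := by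
    rw [map_neg, C_1]; ring
  rw [h1, mul_pow, ← C_pow, coeff_C_mul, coeff_X_add_C_pow, abs_mul, abs_mul, abs_pow, abs_pow]
  simp

/-- Coefficients of `16 X² (1 - X²)^p`. -/
lemma abs_coeff_key (p j : ℕ) :
    |((16 : ℝ[X]) * X ^ 2 * (1 - X ^ 2) ^ p).coeff j| * ((p + 2) * (p + 1) : ℝ) ≤
      16 * ((2 * (p + 2)).choose j : ℝ) := by
  have h1 : ((16 : ℝ[X]) * X ^ 2 * (1 - X ^ 2) ^ p) =
      C 16 * (X ^ 2 * expand ℝ 2 ((1 - X) ^ p)) := by
    simp only [map_pow, map_sub, map_one, expand_X]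
    have : (C (16 : ℝ) : ℝ[X]) = 16 := C_ofNat 16
    rw [this]; ring
  rw [h1, coeff_C_mul, coeff_X_pow_mul', abs_mul]
  split_ifs with h2
  · rw [coeff_expand (by norm_num : 0 < 2)]
    split_ifs with h3
    · rw [abs_coeff_one_sub]
      obtain ⟨i, hi⟩ := h3
      have hj : j = 2 * (i + 1) := by omega
      have h4 : (j - 2) / 2 = i := by omega
      rw [h4, hj]
      have h5 := choose_key p i
      have h6 : (((p + 2) * (p + 1) * p.choose i : ℕ) : ℝ) ≤
          (((2 * (p + 2)).choose (2 * (i + 1)) : ℕ) : ℝ) := by exact_mod_cast h5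
      push_cast at h6
      rw [abs_of_pos (by norm_num : (0 : ℝ) < 16)]
      nlinarith
    · simp
  · simp

set_option linter.unusedSectionVars false

variable {ι : Type*} [Fintype ι] [DecidableEq ι]

/-- The sign vector of `J`. -/
noncomputable def sg (J : Finset ι) (j : ι) : ℝ := if j ∈ J then -1 else 1

/-- The elementary symmetric function. -/
noncomputable def es (s : ℕ) (c : ι → ℝ) : ℝ := ∑ E ∈ powersetCard s (univ : Finset ι), ∏ j ∈ E, c j

lemma es_eq_coeff (s : ℕ) (c : ι → ℝ) : es s c = (∏ j : ι, (1 + C (c j) * X : ℝ[X])).coeff s := by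
  rw [prod_one_add, finsetSum_coeff]
  have h1 : ∀ E ∈ (univ : Finset ι).powerset, (∏ j ∈ E, (C (c j) * X : ℝ[X])).coeff s =
      if E.card = s then ∏ j ∈ E, c j else 0 := by
    intro E _
    rw [prod_mul_distrib, prod_const, ← map_prod, coeff_C_mul, coeff_X_pow]
    by_cases h : E.card = s
    · rw [if_pos h, if_pos h.symm, mul_one]
    · rw [if_neg h, if_neg (Ne.symm h), mul_zero]
  rw [sum_congr rfl h1, ← sum_filter]
  unfold es
  congr 1
  ext E
  simp [mem_powersetCard]

lemma es_sg (s : ℕ) (J : Finset ι) :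
    es s (sg J) = ((1 - X : ℝ[X]) ^ J.card * (1 + X) ^ (Fintype.card ι - J.card)).coeff s := by
  rw [es_eq_coeff]
  congr 1
  have h1 : ∀ j : ι, (1 + C (sg J j) * X : ℝ[X]) = if j ∈ J then 1 - X else 1 + X := by
    intro j
    unfold sg
    split_ifs
    · rw [map_neg, C_1]; ring
    · rw [C_1, one_mul]
  simp_rw [h1]
  rw [prod_ite]
  have h2 : (univ.filter (fun j => j ∈ J)) = J := by ext; simp
  have h3 : (univ.filter (fun j => j ∉ J)) = Jᶜ := by ext; simp
  rw [h2, h3, prod_const, prod_const, card_compl]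

lemma prod_sg_comm (E J : Finset ι) : ∏ j ∈ E, sg J j = ∏ j ∈ J, sg E j := by
  unfold sg
  rw [prod_ite, prod_ite, prod_const_one, prod_const_one, prod_const, prod_const]
  have h1 : E.filter (fun j => j ∈ J) = J.filter (fun j => j ∈ E) := by
    ext x; simp [and_comm]
  rw [h1]

/-- The symmetry of Krawtchouk polynomials. -/
lemma es_symm (s : ℕ) (J E : Finset ι) (hE : E.card = s) :
    ((Fintype.card ι).choose J.card : ℝ) * es s (sg J) =
      ((Fintype.card ι).choose s : ℝ) * es J.card (sg E) := by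
  have h1 : ∑ J' ∈ powersetCard J.card (univ : Finset ι), es s (sg J') =
      ((Fintype.card ι).choose J.card : ℝ) * es s (sg J) := by
    rw [sum_congr rfl (g := fun _ => es s (sg J))]
    · rw [sum_const, card_powersetCard, nsmul_eq_mul, card_univ]
    · intro J' hJ'
      rw [es_sg, es_sg, (mem_powersetCard.mp hJ').2]
  have h2 : ∑ E' ∈ powersetCard s (univ : Finset ι), es J.card (sg E') =
      ((Fintype.card ι).choose s : ℝ) * es J.card (sg E) := by
    rw [sum_congr rfl (g := fun _ => es J.card (sg E))]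
    · rw [sum_const, card_powersetCard, nsmul_eq_mul, card_univ]
    · intro E' hE'
      rw [es_sg, es_sg, (mem_powersetCard.mp hE').2, hE]
  rw [← h1, ← h2]
  unfold es
  rw [sum_comm]
  apply sum_congr rfl
  intro E' _
  apply sum_congr rfl
  intro J' _
  exact prod_sg_comm _ _

/-- The average of `∏ c` over the sets of size `s`. -/
noncomputable def av (s : ℕ) (c : ι → ℝ) : ℝ := es s c / ((Fintype.card ι).choose s : ℝ)

lemma av_sg (s : ℕ) (hs : s ≤ Fintype.card ι) (J : Finset ι) :
    ((Fintype.card ι).choose J.card : ℝ) * av s (sg J) =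
      ((1 - X : ℝ[X]) ^ s * (1 + X) ^ (Fintype.card ι - s)).coeff J.card := by
  obtain ⟨E, _, hE⟩ := exists_subset_card_eq (s := (univ : Finset ι)) (n := s)
    (by rwa [card_univ])
  have h1 := es_symm s J E hE
  have h2 : ((Fintype.card ι).choose s : ℝ) ≠ 0 := by
    exact_mod_cast (Nat.choose_pos hs).ne'
  unfold av
  rw [mul_div_assoc', h1, mul_comm, mul_div_assoc, div_self h2, mul_one, es_sg, hE]

/-- The second difference of the level averages. -/
lemma second_diff (p : ℕ) (hcard : Fintype.card ι = 2 * (p + 2)) (J : Finset ι) :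
    |av p (sg J) - 2 * av (p + 2) (sg J) + av (p + 4) (sg J)| ≤ 16 / ((p + 2) * (p + 1)) := by
  have hJ : J.card ≤ Fintype.card ι := card_le_univ J
  have hC : (0 : ℝ) < ((Fintype.card ι).choose J.card : ℝ) := by
    exact_mod_cast Nat.choose_pos hJ
  have e1 := av_sg p (by omega) J
  have e2 := av_sg (p + 2) (by omega) J
  have e3 := av_sg (p + 4) (by omega) J
  have n1 : Fintype.card ι - p = p + 4 := by omega
  have n2 : Fintype.card ι - (p + 2) = p + 2 := by omega
  have n3 : Fintype.card ι - (p + 4) = p := by omega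
  rw [n1] at e1
  rw [n2] at e2
  rw [n3] at e3
  have h1 : ((Fintype.card ι).choose J.card : ℝ) *
      (av p (sg J) - 2 * av (p + 2) (sg J) + av (p + 4) (sg J)) =
      ((16 : ℝ[X]) * X ^ 2 * (1 - X ^ 2) ^ p).coeff J.card := by
    have : ((16 : ℝ[X]) * X ^ 2 * (1 - X ^ 2) ^ p) =
        (1 - X) ^ p * (1 + X) ^ (p + 4) - C 2 * ((1 - X) ^ (p + 2) * (1 + X) ^ (p + 2)) +
        (1 - X) ^ (p + 4) * (1 + X) ^ p := by
      have hC2 : (C (2 : ℝ) : ℝ[X]) = 2 := C_ofNat 2
      rw [hC2]
      have hf : (1 - X ^ 2 : ℝ[X]) = (1 - X) * (1 + X) := by ring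
      rw [hf, mul_pow, pow_add, pow_add (1 - X) p 2, pow_add (1 + X) p 2, pow_add (1 - X) p 4]
      ring
    rw [this, coeff_add, coeff_sub, coeff_C_mul, ← e1, ← e2, ← e3]
    ring
  have h2 := abs_coeff_key p J.card
  rw [← h1, abs_mul, abs_of_pos hC, ← hcard] at h2
  have hp : (0 : ℝ) < (p + 2) * (p + 1) := by positivity
  rw [le_div_iff₀ hp]
  have h3 : ((Fintype.card ι).choose J.card : ℝ) *
      (|av p (sg J) - 2 * av (p + 2) (sg J) + av (p + 4) (sg J)| * ((p + 2) * (p + 1))) ≤
      ((Fintype.card ι).choose J.card : ℝ) * 16 := by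
    linarith
  exact le_of_mul_le_mul_left h3 hC

end Pool.Agent.Lib.MP_ceba03_an
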