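import Mathlib

set_option autoImplicit false

open MeasureTheory AddCircle Filter Topology

namespace Pool.Agent.Lib.MP_ceba03_an.Torus

variable {T : ℝ} [hT : Fact (0 < T)]

/-- The normalised Haar measure on the circle `ℝ/Tℤ`. -/
noncomputable abbrev haar (T : ℝ) [Fact (0 < T)] : Measure (AddCircle T) :=
  AddCircle.haarAddCircle

/-- The space `L¹` of the circle `ℝ/Tℤ`. -/
noncomputable abbrev LOne (T : ℝ) [Fact (0 < T)] := Lp ℂ 1 (haar T)

/-- Pairing with a continuous function. -/
noncomputable def pair (φ : C(AddCircle T, ℂ)) : LOne T →L[ℂ] ℂ :=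
  LinearMap.mkContinuous
    { toFun := fun g => ∫ t, φ t * g t ∂(haar T)
      map_add' := by
        intro f g
        have h1 : ∀ u : LOne T, Integrable (fun t => φ t * u t) (haar T) := by
          intro u
          have hu : Integrable (u : AddCircle T → ℂ) (haar T) := L1.integrable_coeFn u
          refine hu.bdd_mul (c := ‖φ‖) φ.continuous.aestronglyMeasurable ?_
          exact Filter.Eventually.of_forall (fun t => φ.norm_coe_le_norm t)
        rw [← integral_add (h1 f) (h1 g)]
        apply integral_congr_ae
        filter_upwards [Lp.coeFn_add f g] with t ht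
        rw [ht, Pi.add_apply, mul_add]
      map_smul' := by
        intro c g
        simp only [RingHom.id_apply, smul_eq_mul]
        rw [← integral_const_mul]
        apply integral_congr_ae
        filter_upwards [Lp.coeFn_smul c g] with t ht
        rw [ht, Pi.smul_apply, smul_eq_mul]
        ring }
    ‖φ‖
    (by
      intro g
      simp only [LinearMap.coe_mk, AddHom.coe_mk]
      have hg : Integrable (g : AddCircle T → ℂ) (haar T) := L1.integrable_coeFn g
      calc ‖∫ t, φ t * g t ∂(haar T)‖ ≤ ∫ t, ‖φ t * g t‖ ∂(haar T) :=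
            norm_integral_le_integral_norm _
        _ ≤ ∫ t, ‖φ‖ * ‖g t‖ ∂(haar T) := by
            apply integral_mono_of_nonneg
            · exact Filter.Eventually.of_forall (fun t => norm_nonneg _)
            · exact hg.norm.const_mul _
            · refine Filter.Eventually.of_forall (fun t => ?_)
              simp only [norm_mul]
              exact mul_le_mul_of_nonneg_right (φ.norm_coe_le_norm t) (norm_nonneg _)
        _ = ‖φ‖ * ‖g‖ := by
            rw [integral_const_mul, L1.norm_eq_integral_norm])

lemma pair_apply (φ : C(AddCircle T, ℂ)) (g : LOne T) :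
    pair φ g = ∫ t, φ t * g t ∂(haar T) := rfl

/-- The `n`-th Fourier coefficient as a continuous functional on `L¹`. -/
noncomputable def coeffL (n : ℤ) : LOne T →L[ℂ] ℂ := pair (fourier (-n))

lemma coeffL_apply (n : ℤ) (g : LOne T) :
    coeffL n g = fourierCoeff (g : AddCircle T → ℂ) n := by
  simp only [coeffL, pair_apply, fourierCoeff, smul_eq_mul]

/-- All pairings vanish if all Fourier coefficients do. -/
lemma pair_eq_zero (g : LOne T) (hg : ∀ n : ℤ, fourierCoeff (g : AddCircle T → ℂ) n = 0)
    (φ : C(AddCircle T, ℂ)) : pair φ g = 0 := by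
  -- the pairing is continuous in `φ`
  have hgi : Integrable (g : AddCircle T → ℂ) (haar T) := L1.integrable_coeFn g
  have hint : ∀ ψ : C(AddCircle T, ℂ), Integrable (fun t => ψ t * g t) (haar T) := by
    intro ψ
    refine hgi.bdd_mul (c := ‖ψ‖) ψ.continuous.aestronglyMeasurable ?_
    exact Filter.Eventually.of_forall (fun t => ψ.norm_coe_le_norm t)
  let P : C(AddCircle T, ℂ) →ₗ[ℂ] ℂ :=
    { toFun := fun ψ => ∫ t, ψ t * g t ∂(haar T)
      map_add' := by
        intro a b
        rw [← integral_add (hint a) (hint b)]
        congr 1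
        ext t
        rw [ContinuousMap.add_apply, add_mul]
      map_smul' := by
        intro c a
        simp only [RingHom.id_apply, smul_eq_mul]
        rw [← integral_const_mul]
        congr 1
        ext t
        rw [ContinuousMap.smul_apply, smul_eq_mul, mul_assoc] }
  let Q : C(AddCircle T, ℂ) →L[ℂ] ℂ := P.mkContinuous ‖g‖ (by
    intro ψ
    change ‖∫ t, ψ t * g t ∂(haar T)‖ ≤ _
    calc ‖∫ t, ψ t * g t ∂(haar T)‖ ≤ ∫ t, ‖ψ t * g t‖ ∂(haar T) :=
          norm_integral_le_integral_norm _
      _ ≤ ∫ t, ‖ψ‖ * ‖g t‖ ∂(haar T) := by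
          apply integral_mono_of_nonneg
          · exact Filter.Eventually.of_forall (fun t => norm_nonneg _)
          · exact hgi.norm.const_mul _
          · refine Filter.Eventually.of_forall (fun t => ?_)
            simp only [norm_mul]
            exact mul_le_mul_of_nonneg_right (ψ.norm_coe_le_norm t) (norm_nonneg _)
      _ = ‖g‖ * ‖ψ‖ := by
          rw [integral_const_mul, L1.norm_eq_integral_norm, mul_comm])
  have hker : (⊤ : Submodule ℂ C(AddCircle T, ℂ)) ≤ Q.ker := by
    rw [← span_fourier_closure_eq_top]
    apply Submodule.topologicalClosure_minimal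
    · rw [Submodule.span_le]
      rintro _ ⟨n, rfl⟩
      have h1 := hg (-n)
      rw [← coeffL_apply] at h1
      change Q (fourier n) = 0
      change ∫ t, fourier n t * g t ∂(haar T) = 0
      simpa only [coeffL, neg_neg, pair_apply] using h1
    · exact Q.isClosed_ker
  exact hker (Submodule.mem_top (x := φ))

/-- The integral over every closed set vanishes. -/
lemma setIntegral_closed_eq_zero (g : LOne T)
    (hg : ∀ n : ℤ, fourierCoeff (g : AddCircle T → ℂ) n = 0) (K : Set (AddCircle T))
    (hK : IsClosed K) : ∫ x in K, g x ∂(haar T) = 0 := by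
  have hgi : Integrable (g : AddCircle T → ℂ) (haar T) := L1.integrable_coeFn g
  let δ : ℕ → ℝ := fun n => 1 / ((n : ℝ) + 1)
  have hδ : ∀ n, 0 < δ n := fun n => by positivity
  have hδlim : Tendsto δ atTop (𝓝 0) := tendsto_one_div_add_atTop_nhds_zero_nat
  let φ : ℕ → C(AddCircle T, ℂ) := fun n =>
    ⟨fun x => (((thickenedIndicator (hδ n) K x : NNReal) : ℝ) : ℂ), by
      have := (thickenedIndicator (hδ n) K).continuous
      fun_prop⟩
  have h0 : ∀ n, ∫ x, φ n x * g x ∂(haar T) = 0 := fun n => pair_eq_zero g hg (φ n)
  have hlim : Tendsto (fun n => ∫ x, φ n x * g x ∂(haar T)) atTop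
      (𝓝 (∫ x, K.indicator (fun x => g x) x ∂(haar T))) := by
    apply tendsto_integral_of_dominated_convergence (fun x => ‖g x‖)
    · intro n
      exact ((φ n).continuous.aestronglyMeasurable).mul hgi.aestronglyMeasurable
    · exact hgi.norm
    · intro n
      refine Filter.Eventually.of_forall (fun x => ?_)
      rw [norm_mul]
      have h1 : ‖φ n x‖ ≤ 1 := by
        change ‖(((thickenedIndicator (hδ n) K x : NNReal) : ℝ) : ℂ)‖ ≤ 1
        rw [Complex.norm_real, Real.norm_of_nonneg (NNReal.coe_nonneg _)]
        exact_mod_cast thickenedIndicator_le_one (hδ n) K x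
      calc ‖φ n x‖ * ‖g x‖ ≤ 1 * ‖g x‖ := mul_le_mul_of_nonneg_right h1 (norm_nonneg _)
        _ = ‖g x‖ := one_mul _
    · refine Filter.Eventually.of_forall (fun x => ?_)
      have h1 := (thickenedIndicator_tendsto_indicator_closure hδ hδlim K)
      rw [tendsto_pi_nhds] at h1
      have h2 := h1 x
      rw [hK.closure_eq] at h2
      have h3 : Tendsto (fun n => φ n x) atTop
          (𝓝 (((K.indicator (fun _ => (1 : NNReal)) x : NNReal) : ℝ) : ℂ)) := by
        have hc : Continuous (fun r : NNReal => (((r : ℝ)) : ℂ)) := by fun_prop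
        exact (hc.tendsto _).comp h2
      have h4 := h3.mul_const (g x)
      convert h4 using 2
      by_cases hx : x ∈ K
      · simp [hx]
      · simp [hx]
  have h5 : ∫ x, K.indicator (fun x => g x) x ∂(haar T) = 0 := by
    refine tendsto_nhds_unique hlim ?_
    simp only [h0]
    exact tendsto_const_nhds
  rwa [integral_indicator hK.measurableSet] at h5

/-- Uniqueness: a function of `L¹` is determined by its Fourier coefficients. -/
theorem eq_zero_of_fourierCoeff (g : LOne T)
    (hg : ∀ n : ℤ, fourierCoeff (g : AddCircle T → ℂ) n = 0) : g = 0 := by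
  have hgi : Integrable (g : AddCircle T → ℂ) (haar T) := L1.integrable_coeFn g
  have h := ae_eq_zero_of_forall_setIntegral_isClosed_eq_zero hgi
    (setIntegral_closed_eq_zero g hg)
  exact (Lp.eq_zero_iff_ae_eq_zero).2 h

theorem ext_fourierCoeff (f g : LOne T)
    (h : ∀ n : ℤ, fourierCoeff (f : AddCircle T → ℂ) n = fourierCoeff (g : AddCircle T → ℂ) n) :
    f = g := by
  rw [← sub_eq_zero]
  apply eq_zero_of_fourierCoeff
  intro n
  rw [← coeffL_apply, map_sub, coeffL_apply, coeffL_apply, h n, sub_self]

/-! ### Convolution -/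

/-- The convolution integral `x ↦ ∫ f (x - y) g y dy`. -/
noncomputable def convFun (f g : AddCircle T → ℂ) (x : AddCircle T) : ℂ :=
  ∫ y, f (x - y) * g y ∂(haar T)

lemma convFun_eq (f g : AddCircle T → ℂ) :
    convFun f g = convolution g f (ContinuousLinearMap.mul ℂ ℂ) (haar T) := by
  ext x
  simp only [convFun, convolution, ContinuousLinearMap.mul_apply']
  congr 1
  ext y
  rw [mul_comm]

theorem integrable_convFun {f g : AddCircle T → ℂ} (hf : Integrable f (haar T))
    (hg : Integrable g (haar T)) : Integrable (convFun f g) (haar T) := by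
  rw [convFun_eq]
  exact hg.integrable_convolution (ContinuousLinearMap.mul ℂ ℂ) hf

/-- The convolution of two elements of `L¹`. -/
noncomputable def conv (f g : LOne T) : LOne T :=
  (integrable_convFun (L1.integrable_coeFn f) (L1.integrable_coeFn g)).toL1 (convFun f g)

lemma conv_ae (f g : LOne T) :
    ((conv f g : LOne T) : AddCircle T → ℂ) =ᵐ[haar T] convFun f g :=
  (integrable_convFun (L1.integrable_coeFn f) (L1.integrable_coeFn g)).coeFn_toL1

theorem fourierCoeff_conv (f g : LOne T) (n : ℤ) :
    fourierCoeff ((conv f g : LOne T) : AddCircle T → ℂ) n =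
      fourierCoeff (f : AddCircle T → ℂ) n * fourierCoeff (g : AddCircle T → ℂ) n := by
  have hf : Integrable (f : AddCircle T → ℂ) (haar T) := L1.integrable_coeFn f
  have hg : Integrable (g : AddCircle T → ℂ) (haar T) := L1.integrable_coeFn g
  rw [fourierCoeff_congr_ae (conv_ae f g)]
  rw [convFun_eq]
  have h2 : ∀ t, fourier (-n) t •
        convolution g f (ContinuousLinearMap.mul ℂ ℂ) (haar T) t =
      convolution (fun s => fourier (-n) s * g s) (fun s => fourier (-n) s * f s)
        (ContinuousLinearMap.mul ℂ ℂ) (haar T) t := by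
    intro t
    simp only [convolution, ContinuousLinearMap.mul_apply', smul_eq_mul]
    rw [← integral_const_mul]
    congr 1
    ext s
    have : (fourier (-n) t : ℂ) = fourier (-n) s * fourier (-n) (t - s) := by
      simp only [fourier_apply]
      rw [← Circle.coe_mul, ← AddCircle.toCircle_add, ← smul_add, add_sub_cancel]
    rw [this]
    ring
  unfold fourierCoeff
  simp_rw [h2]
  rw [integral_convolution]
  · simp only [ContinuousLinearMap.mul_apply', smul_eq_mul]
    rw [mul_comm]
  · exact hg.fourier_smul (-n)
  · exact hf.fourier_smul (-n)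

theorem norm_conv_le (f g : LOne T) : ‖conv f g‖ ≤ ‖f‖ * ‖g‖ := by
  have hf : Integrable (f : AddCircle T → ℂ) (haar T) := L1.integrable_coeFn f
  have hg : Integrable (g : AddCircle T → ℂ) (haar T) := L1.integrable_coeFn g
  rw [L1.norm_eq_integral_norm]
  have h1 : ∫ x, ‖(conv f g : LOne T) x‖ ∂(haar T) = ∫ x, ‖convFun f g x‖ ∂(haar T) := by
    apply integral_congr_ae
    filter_upwards [conv_ae f g] with x hx
    rw [hx]
  rw [h1]
  have h2 : ∫ x, ‖convFun f g x‖ ∂(haar T) ≤
      ∫ x, convolution (fun s => ‖g s‖) (fun s => ‖f s‖) (ContinuousLinearMap.mul ℝ ℝ)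
        (haar T) x ∂(haar T) := by
    apply integral_mono_of_nonneg
    · exact Filter.Eventually.of_forall (fun x => norm_nonneg _)
    · exact hg.norm.integrable_convolution (ContinuousLinearMap.mul ℝ ℝ) hf.norm
    · refine Filter.Eventually.of_forall (fun x => ?_)
      simp only [convFun, convolution, ContinuousLinearMap.mul_apply']
      calc ‖∫ y, f (x - y) * g y ∂(haar T)‖ ≤ ∫ y, ‖f (x - y) * g y‖ ∂(haar T) :=
            norm_integral_le_integral_norm _
        _ = ∫ y, ‖g y‖ * ‖f (x - y)‖ ∂(haar T) := by
            congr 1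
            ext y
            rw [norm_mul, mul_comm]
  refine h2.trans (le_of_eq ?_)
  rw [integral_convolution (ContinuousLinearMap.mul ℝ ℝ) hg.norm hf.norm]
  simp only [ContinuousLinearMap.mul_apply']
  rw [L1.norm_eq_integral_norm, L1.norm_eq_integral_norm, mul_comm]

/-- Convolution as a continuous bilinear map. -/
noncomputable def convL : LOne T →L[ℂ] LOne T →L[ℂ] LOne T :=
  LinearMap.mkContinuous₂
    (LinearMap.mk₂ ℂ conv
      (by
        intro a b c
        apply ext_fourierCoeff
        intro n
        rw [fourierCoeff_conv, ← coeffL_apply, ← coeffL_apply, ← coeffL_apply, map_add, map_add,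
          coeffL_apply, coeffL_apply, coeffL_apply, coeffL_apply, coeffL_apply, fourierCoeff_conv,
          fourierCoeff_conv, add_mul])
      (by
        intro r a c
        apply ext_fourierCoeff
        intro n
        rw [fourierCoeff_conv, ← coeffL_apply, ← coeffL_apply, ← coeffL_apply, map_smul, map_smul,
          coeffL_apply, coeffL_apply, coeffL_apply, fourierCoeff_conv, smul_eq_mul, smul_eq_mul,
          mul_assoc])
      (by
        intro a b c
        apply ext_fourierCoeff
        intro n
        rw [fourierCoeff_conv, ← coeffL_apply, ← coeffL_apply, ← coeffL_apply, map_add, map_add,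
          coeffL_apply, coeffL_apply, coeffL_apply, coeffL_apply, coeffL_apply, fourierCoeff_conv,
          fourierCoeff_conv, mul_add])
      (by
        intro r a c
        apply ext_fourierCoeff
        intro n
        rw [fourierCoeff_conv, ← coeffL_apply, ← coeffL_apply, ← coeffL_apply, map_smul, map_smul,
          coeffL_apply, coeffL_apply, coeffL_apply, fourierCoeff_conv, smul_eq_mul, smul_eq_mul]
        ring))
    1 (by
      intro f g
      rw [one_mul]
      exact norm_conv_le f g)

lemma convL_apply (f g : LOne T) : convL f g = conv f g := rfl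

/-! ### Change of the length of the circle -/

variable {S : ℝ} [hS : Fact (0 < S)]

lemma fourier_equiv (n : ℤ) (x : AddCircle S) :
    fourier n (AddCircle.equivAddCircle S T hS.out.ne' hT.out.ne' x) = fourier n x := by
  induction x using QuotientAddGroup.induction_on with
  | H x =>
    have h1 : AddCircle.equivAddCircle S T hS.out.ne' hT.out.ne' (x : AddCircle S) =
        ((x * (S⁻¹ * T) : ℝ) : AddCircle T) := AddCircle.equivAddCircle_apply_mk _ _ _ _ x
    change fourier n (AddCircle.equivAddCircle S T hS.out.ne' hT.out.ne' (x : AddCircle S)) = _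
    rw [h1, fourier_coe_apply]
    rw [fourier_coe_apply]
    congr 1
    have h2 : (T : ℂ) ≠ 0 := by exact_mod_cast hT.out.ne'
    have h3 : (S : ℂ) ≠ 0 := by exact_mod_cast hS.out.ne'
    push_cast
    field_simp

lemma measurePreserving_equiv :
    MeasurePreserving (AddCircle.equivAddCircle S T hS.out.ne' hT.out.ne') (haar S) (haar T) := by
  have h := AddMonoidHom.measurePreserving (μ := haar S) (ν := haar T)
    (f := (AddCircle.equivAddCircle S T hS.out.ne' hT.out.ne').toAddMonoidHom)
    (AddCircle.homeomorphAddCircle S T hS.out.ne' hT.out.ne').continuous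
    (AddCircle.equivAddCircle S T hS.out.ne' hT.out.ne').surjective
    (by rw [measure_univ, measure_univ])
  exact h

/-- The isometry `L¹(ℝ/Tℤ) → L¹(ℝ/Sℤ)`. -/
noncomputable def change : LOne T →ₗᵢ[ℂ] LOne S :=
  Lp.compMeasurePreservingₗᵢ ℂ (AddCircle.equivAddCircle S T hS.out.ne' hT.out.ne')
    measurePreserving_equiv

theorem fourierCoeff_change (f : LOne T) (n : ℤ) :
    fourierCoeff ((change f : LOne S) : AddCircle S → ℂ) n =
      fourierCoeff (f : AddCircle T → ℂ) n := by
  have h1 : ((change f : LOne S) : AddCircle S → ℂ) =ᵐ[haar S]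
      (f : AddCircle T → ℂ) ∘ (AddCircle.equivAddCircle S T hS.out.ne' hT.out.ne') :=
    Lp.coeFn_compMeasurePreserving f measurePreserving_equiv
  rw [fourierCoeff_congr_ae h1]
  unfold fourierCoeff
  have h2 : ∀ t : AddCircle S, fourier (-n) t •
      ((f : AddCircle T → ℂ) ∘ (AddCircle.equivAddCircle S T hS.out.ne' hT.out.ne')) t =
      (fun s : AddCircle T => fourier (-n) s • f s)
        (AddCircle.equivAddCircle S T hS.out.ne' hT.out.ne' t) := by
    intro t
    simp only [Function.comp_apply, fourier_equiv]
  simp_rw [h2]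
  have hemb : MeasurableEmbedding (AddCircle.equivAddCircle S T hS.out.ne' hT.out.ne') :=
    (AddCircle.homeomorphAddCircle S T hS.out.ne' hT.out.ne').measurableEmbedding
  exact measurePreserving_equiv.integral_comp hemb (fun s : AddCircle T => fourier (-n) s • f s)

lemma change_change (f : LOne T) : (change (change f : LOne S) : LOne T) = f := by
  apply ext_fourierCoeff
  intro n
  rw [fourierCoeff_change, fourierCoeff_change]

end Pool.Agent.Lib.MP_ceba03_an.Torus
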