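import Pool.Agent.Lib.MP_ceba03_an.Final
import Pool.Agent.Lib.MP_ceba03_an.Torus

set_option autoImplicit false

open MeasureTheory AddCircle

namespace Pool.Agent.Lib.MP_ceba03_an.TorusAux

open Pool.Agent.Lib.MP_ceba03_an

instance instTwoPiPos : Fact (0 < 2 * Real.pi) := ⟨Real.two_pi_pos⟩

/-- The circle `𝕋 = ℝ/2πℤ`. -/
abbrev Torus : Type := AddCircle (2 * Real.pi)

/-- The normalised Haar measure of `𝕋`. -/
noncomputable abbrev haar : Measure Torus := AddCircle.haarAddCircle

/-- The Banach space `L¹(𝕋)`. -/
noncomputable abbrev L1 := Lp ℂ 1 haar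

/-- The convolution integral `x ↦ ∫ f (x - y) g y dy`. -/
noncomputable def convFun (f g : Torus → ℂ) (x : Torus) : ℂ :=
  ∫ y, f (x - y) * g y ∂haar

/-- The convolution integral of two integrable functions is integrable. -/
theorem integrable_convFun (f g : L1) : Integrable (convFun f g) haar :=
  Torus.integrable_convFun (L1.integrable_coeFn f) (L1.integrable_coeFn g)

/-- The convolution product of `L¹(𝕋)`: the class of the convolution integral. -/
noncomputable def conv (f g : L1) : L1 := (integrable_convFun f g).toL1 (convFun f g)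

/-- Closed subalgebras of `L¹(𝕋)`: norm-closed linear subspaces stable under convolution. -/
structure IsClosedSubalgebra (A : Submodule ℂ L1) : Prop where
  /-- the subspace is norm-closed -/
  closed : IsClosed (A : Set L1)
  /-- the subspace is stable under convolution -/
  conv_mem : ∀ f ∈ A, ∀ g ∈ A, conv f g ∈ A

/-- The intersection of all the closed subalgebras that contain `X`. -/
noncomputable def generated (X : Set L1) : Submodule ℂ L1 :=
  sInf {B : Submodule ℂ L1 | IsClosedSubalgebra B ∧ X ⊆ B}

/-- `generated X` is the smallest closed subalgebra containing `X`. -/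
theorem generated_isLeast (X : Set L1) :
    IsLeast {B : Submodule ℂ L1 | IsClosedSubalgebra B ∧ X ⊆ B} (generated X) := by
  refine ⟨⟨⟨?_, ?_⟩, ?_⟩, fun B hB => sInf_le hB⟩
  · rw [generated, Submodule.coe_sInf]
    exact isClosed_biInter (fun B hB => hB.1.closed)
  · intro f hf g hg
    rw [generated, Submodule.mem_sInf] at hf hg ⊢
    intro B hB
    exact hB.1.conv_mem f (hf B hB) g (hg B hB)
  · intro f hf
    rw [SetLike.mem_coe, generated, Submodule.mem_sInf]
    intro B hB
    exact hB.2 hf

/-- The idempotent elements of a subspace. -/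
def idempotents (A : Submodule ℂ L1) : Set L1 := {e | e ∈ A ∧ conv e e = e}

/-- The equivalence relation `r(𝔄)` on `ℤ`: `m ∼ n` if `f̂(m) = f̂(n)` for all `f` in `𝔄`. -/
def rudin (A : Submodule ℂ L1) : Setoid ℤ where
  r m n := ∀ f ∈ A, fourierCoeff (f : Torus → ℂ) m = fourierCoeff (f : Torus → ℂ) n
  iseqv :=
    { refl := fun _ _ _ => rfl
      symm := fun h f hf => (h f hf).symm
      trans := fun h h' f hf => (h f hf).trans (h' f hf) }

/-! ### The proof -/

theorem conv_eq (f g : L1) : conv f g = Torus.conv f g := rfl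

theorem conv_coeff (f g : L1) (n : ℤ) :
    fourierCoeff ((conv f g : L1) : Torus → ℂ) n =
      fourierCoeff (f : Torus → ℂ) n * fourierCoeff (g : Torus → ℂ) n :=
  Torus.fourierCoeff_conv f g n

/-- The closed span of the idempotents of a closed subalgebra is a closed subalgebra. -/
theorem span_idempotents (A : Submodule ℂ L1) (hA : IsClosedSubalgebra A) :
    IsClosedSubalgebra (Submodule.span ℂ (idempotents A)).topologicalClosure := by
  refine ⟨Submodule.isClosed_topologicalClosure _, ?_⟩
  intro f hf g hg
  have hX : ∀ a ∈ idempotents A, ∀ b ∈ idempotents A, conv a b ∈ idempotents A := by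
    intro a ha b hb
    refine ⟨hA.conv_mem a ha.1 b hb.1, ?_⟩
    apply Torus.ext_fourierCoeff
    intro n
    have h1 : fourierCoeff (a : Torus → ℂ) n * fourierCoeff (a : Torus → ℂ) n =
        fourierCoeff (a : Torus → ℂ) n := by
      rw [← conv_coeff, ha.2]
    have h2 : fourierCoeff (b : Torus → ℂ) n * fourierCoeff (b : Torus → ℂ) n =
        fourierCoeff (b : Torus → ℂ) n := by
      rw [← conv_coeff, hb.2]
    rw [conv_coeff, conv_coeff]
    calc _ = (fourierCoeff (a : Torus → ℂ) n * fourierCoeff (a : Torus → ℂ) n) *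
          (fourierCoeff (b : Torus → ℂ) n * fourierCoeff (b : Torus → ℂ) n) := by ring
      _ = _ := by rw [h1, h2]
  have hspan : ∀ a ∈ Submodule.span ℂ (idempotents A), ∀ b ∈ Submodule.span ℂ (idempotents A),
      Torus.convL a b ∈ Submodule.span ℂ (idempotents A) := by
    intro a ha b hb
    induction ha using Submodule.span_induction with
    | mem a ha =>
      induction hb using Submodule.span_induction with
      | mem b hb => exact Submodule.subset_span (hX a ha b hb)
      | zero => rw [map_zero]; exact Submodule.zero_mem _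
      | add x y _ _ hx hy => rw [map_add]; exact Submodule.add_mem _ hx hy
      | smul c x _ hx => rw [map_smul]; exact Submodule.smul_mem _ c hx
    | zero => rw [map_zero]; exact Submodule.zero_mem _
    | add x y _ _ hx hy =>
      rw [map_add, _root_.add_apply]; exact Submodule.add_mem _ hx hy
    | smul c x _ hx =>
      rw [map_smul, _root_.smul_apply]; exact Submodule.smul_mem _ c hx
  have hc : Continuous (Function.uncurry (fun a b : L1 => Torus.convL a b)) :=
    (Torus.convL (T := 2 * Real.pi)).continuous₂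
  exact map_mem_closure₂ hc hf hg hspan

/-- The theorem on the circle `ℝ/ℤ`, in terms of Fourier coefficients. -/
theorem base :
    ∃ A : Submodule ℂ (Lp ℂ 1 (AddCircle.haarAddCircle : Measure UnitAddCircle)),
      IsClosed (A : Set (Lp ℂ 1 (AddCircle.haarAddCircle : Measure UnitAddCircle))) ∧
      (∀ f ∈ A, ∀ g ∈ A, ∃ h ∈ A, ∀ n : ℤ,
        fourierCoeff (h : UnitAddCircle → ℂ) n =
          fourierCoeff (f : UnitAddCircle → ℂ) n * fourierCoeff (g : UnitAddCircle → ℂ) n) ∧
      ¬ (A ≤ (Submodule.span ℂ
          {e : Lp ℂ 1 (AddCircle.haarAddCircle : Measure UnitAddCircle) |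
            e ∈ A ∧ ∀ n : ℤ,
              fourierCoeff (e : UnitAddCircle → ℂ) n * fourierCoeff (e : UnitAddCircle → ℂ) n =
                fourierCoeff (e : UnitAddCircle → ℂ) n}).topologicalClosure) ∧
      ∀ n : ℤ,
        {m : ℤ | ∀ f ∈ A, fourierCoeff (f : UnitAddCircle → ℂ) m =
            fourierCoeff (f : UnitAddCircle → ℂ) n}.Finite →
        {m : ℤ | ∀ f ∈ A, fourierCoeff (f : UnitAddCircle → ℂ) m =
            fourierCoeff (f : UnitAddCircle → ℂ) n}.ncard ≤ 2 :=
  assembly blocks summable_al summable_ga ga_nonneg et_pos (fun _ => by positivity)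

/-- **Kahane's question.** There is a closed subalgebra of `L¹(𝕋)` that is not generated by its
idempotents and all of whose finite Rudin classes have at most two elements. -/
theorem main : ∃ A : Submodule ℂ L1, IsClosedSubalgebra A ∧ A ≠ generated (idempotents A) ∧
    ∀ S ∈ (rudin A).classes, S.Finite → S.ncard ≤ 2 := by
  obtain ⟨A₀, hcl, hmul, hgen, hfin⟩ := base
  let Φ : L1 →ₗᵢ[ℂ] Torus.LOne 1 := Torus.change (T := 2 * Real.pi) (S := 1)
  have hΦ : ∀ (f : L1) (n : ℤ), fourierCoeff ((Φ f : Torus.LOne 1) : UnitAddCircle → ℂ) n =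
      fourierCoeff (f : Torus → ℂ) n := fun f n => Torus.fourierCoeff_change f n
  have hsurj : ∀ f₀ : Torus.LOne 1, ∃ f : L1, Φ f = f₀ := fun f₀ =>
    ⟨Torus.change f₀, Torus.change_change f₀⟩
  let A : Submodule ℂ L1 := Submodule.comap Φ.toLinearMap A₀
  have hmem : ∀ f : L1, f ∈ A ↔ Φ f ∈ A₀ := fun f => Iff.rfl
  have hA : IsClosedSubalgebra A := by
    refine ⟨hcl.preimage Φ.continuous, ?_⟩
    intro f hf g hg
    obtain ⟨h, hh, hc⟩ := hmul (Φ f) hf (Φ g) hg
    have h1 : Φ (conv f g) = h := by
      apply Torus.ext_fourierCoeff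
      intro n
      rw [hΦ, conv_coeff, hc n, hΦ, hΦ]
    rw [hmem, h1]
    exact hh
  refine ⟨A, hA, ?_, ?_⟩
  · intro hEq
    apply hgen
    have h1 : A ≤ (Submodule.span ℂ (idempotents A)).topologicalClosure := by
      conv_lhs => rw [hEq]
      exact (generated_isLeast _).2 ⟨span_idempotents A hA,
        fun e he => Submodule.le_topologicalClosure _ (Submodule.subset_span he)⟩
    intro f₀ hf₀
    obtain ⟨f, rfl⟩ := hsurj f₀
    have h2 : f ∈ closure ((Submodule.span ℂ (idempotents A) : Submodule ℂ L1) : Set L1) :=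
      h1 ((hmem f).2 hf₀)
    have h3 := map_mem_closure Φ.continuous h2 (t := ((Submodule.span ℂ
          {e : Lp ℂ 1 (AddCircle.haarAddCircle : Measure UnitAddCircle) |
            e ∈ A₀ ∧ ∀ n : ℤ,
              fourierCoeff (e : UnitAddCircle → ℂ) n * fourierCoeff (e : UnitAddCircle → ℂ) n =
                fourierCoeff (e : UnitAddCircle → ℂ) n} :
                  Submodule ℂ (Lp ℂ 1 (AddCircle.haarAddCircle : Measure UnitAddCircle))) :
                  Set (Lp ℂ 1 (AddCircle.haarAddCircle : Measure UnitAddCircle)))) (by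
      intro a ha
      have ha' : a ∈ Submodule.span ℂ (idempotents A) := ha
      clear ha
      rw [SetLike.mem_coe]
      induction ha' using Submodule.span_induction with
      | mem a ha =>
        apply Submodule.subset_span
        refine ⟨(hmem a).1 ha.1, fun n => ?_⟩
        rw [hΦ, ← conv_coeff, ha.2]
      | zero => rw [map_zero]; exact Submodule.zero_mem _
      | add x y _ _ hx hy => rw [map_add]; exact Submodule.add_mem _ hx hy
      | smul c x _ hx => rw [map_smul]; exact Submodule.smul_mem _ c hx)
    exact h3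
  · rintro S ⟨n, rfl⟩ hS
    have h1 : {m : ℤ | (rudin A) m n} = {m : ℤ | ∀ f ∈ A₀,
        fourierCoeff (f : UnitAddCircle → ℂ) m = fourierCoeff (f : UnitAddCircle → ℂ) n} := by
      ext m
      constructor
      · intro h f₀ hf₀
        obtain ⟨f, rfl⟩ := hsurj f₀
        rw [hΦ, hΦ]
        exact h f ((hmem f).2 hf₀)
      · intro h f hf
        have := h (Φ f) ((hmem f).1 hf)
        rwa [hΦ, hΦ] at this
    rw [h1] at hS ⊢
    exact hfin n hS

end Pool.Agent.Lib.MP_ceba03_an.TorusAux
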