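import Pool.Agent.Lib.MP_ceba03_an.Assembly
import Pool.Agent.Lib.MP_ceba03_an.Affine

set_option autoImplicit false
set_option linter.unusedSectionVars false

open Finset MeasureTheory AddCircle

namespace Pool.Agent.Lib.MP_ceba03_an

/-! ### The frequency map -/

/-- The frequency attached to an integer vector. -/
def lamv {d : ℕ} (B : ℤ) (v : Fin d → ℤ) : ℤ := ∑ j, v j * B ^ (j : ℕ)

lemma lamv_sub {d : ℕ} (B : ℤ) (v w : Fin d → ℤ) : lamv B (v - w) = lamv B v - lamv B w := by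
  unfold lamv
  rw [← sum_sub_distrib]
  apply sum_congr rfl; intro j _
  rw [Pi.sub_apply]; ring

lemma lamv_eq_zero {d : ℕ} (B : ℤ) (hB : 0 < B) (v : Fin d → ℤ) (hv : ∀ j, |v j| < B)
    (h : lamv B v = 0) : ∀ j, v j = 0 := by
  induction d with
  | zero => exact fun j => j.elim0
  | succ d ih =>
    have h1 : lamv B v = v 0 + B * lamv B (fun j : Fin d => v j.succ) := by
      unfold lamv
      rw [Fin.sum_univ_succ, mul_sum]
      congr 1
      · simp
      · apply sum_congr rfl; intro j _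
        rw [Fin.val_succ, pow_succ]; ring
    have h2 : B ∣ v 0 := by
      refine ⟨-lamv B (fun j : Fin d => v j.succ), ?_⟩
      rw [h1] at h
      linarith
    have h3 : v 0 = 0 := Int.eq_zero_of_abs_lt_dvd h2 (hv 0)
    have h4 : lamv B (fun j : Fin d => v j.succ) = 0 := by
      rw [h1, h3, zero_add] at h
      rcases mul_eq_zero.mp h with h5 | h5
      · omega
      · exact h5
    have h5 := ih (fun j => v j.succ) (fun j => hv j.succ) h4
    intro j
    refine Fin.cases h3 (fun i => h5 i) j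

lemma lamv_inj {d : ℕ} (B : ℤ) (hB : 0 < B) (v w : Fin d → ℤ) (hv : ∀ j, |v j - w j| < B)
    (h : lamv B v = lamv B w) : v = w := by
  have h1 : lamv B (v - w) = 0 := by rw [lamv_sub, h, sub_self]
  have h2 := lamv_eq_zero B hB (v - w) (fun j => by rw [Pi.sub_apply]; exact hv j) h1
  funext j
  have := h2 j
  rw [Pi.sub_apply] at this
  linarith

lemma abs_lamv_le {d : ℕ} (B : ℕ) (M : ℕ) (v : Fin d → ℤ) (hv : ∀ j, |v j| ≤ M) :
    |lamv (B : ℤ) v| ≤ ((∑ j : Fin d, M * B ^ (j : ℕ) : ℕ) : ℤ) := by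
  unfold lamv
  calc |∑ j, v j * (B : ℤ) ^ (j : ℕ)| ≤ ∑ j, |v j * (B : ℤ) ^ (j : ℕ)| := abs_sum_le_sum_abs _ _
    _ ≤ ∑ j : Fin d, ((M : ℤ) * (B : ℤ) ^ (j : ℕ)) := by
        apply sum_le_sum; intro j _
        rw [abs_mul, abs_of_nonneg (by positivity : (0 : ℤ) ≤ (B : ℤ) ^ (j : ℕ))]
        exact mul_le_mul_of_nonneg_right (hv j) (by positivity)
    _ = _ := by push_cast; rfl

/-! ### Fourier coefficients of continuous functions, as linear functionals -/

/-- The Fourier coefficient on continuous functions. -/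
noncomputable def cf (n : ℤ) : C(UnitAddCircle, ℂ) →L[ℂ] ℂ :=
  (coeffL n).comp (ContinuousMap.toLp 1 hm ℂ)

lemma cf_apply (n : ℤ) (φ : C(UnitAddCircle, ℂ)) : cf n φ = fourierCoeff φ n := by
  unfold cf
  rw [ContinuousLinearMap.comp_apply, coeffL_apply]
  exact fourierCoeff_toL1 φ n

lemma cf_fourier (n k : ℤ) : cf n (fourier k) = if n = k then 1 else 0 := by
  rw [cf_apply, fourierCoeff_fourier, Pi.single_apply]

lemma fourier_zero_eq : (fourier 0 : C(UnitAddCircle, ℂ)) = 1 := by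
  ext x
  rw [fourier_zero, ContinuousMap.one_apply]

lemma fourier_add_eq (m n : ℤ) :
    (fourier (m + n) : C(UnitAddCircle, ℂ)) = fourier m * fourier n := by
  ext x
  rw [fourier_add, ContinuousMap.mul_apply]

lemma fourier_sum_apply {κ : Type*} (s : Finset κ) (k : κ → ℤ) (x : UnitAddCircle) :
    (fourier (∑ j ∈ s, k j) x : ℂ) = ∏ j ∈ s, fourier (k j) x := by
  classical
  induction s using Finset.induction_on with
  | empty => simp
  | insert a s ha ih => rw [sum_insert ha, prod_insert ha, fourier_add, ih]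

/-! ### The kernels -/

section kernel

variable {d : ℕ} (M : ℕ) (B : ℤ)

/-- The sign at coordinate `j` for the twist `θ`. -/
def sgt (θ : Option (Fin d)) (j : Fin d) : ℝ := if θ = some j then -1 else 1

lemma sgt_sq (θ : Option (Fin d)) (j : Fin d) : sgt θ j * sgt θ j = 1 := by
  unfold sgt; split_ifs <;> norm_num

/-- The total sign of `u`. -/
def sgu (θ : Option (Fin d)) (u : Fin d → Fin M) : ℝ := ∏ j, sgt θ j ^ (u j : ℕ)

/-- The integer vector of `u`. -/
def vec (u : Fin d → Fin M) : Fin d → ℤ := fun j => ((u j : ℕ) : ℤ)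

/-- The trigonometric polynomial `P_θ`. -/
noncomputable def PP (θ : Option (Fin d)) : C(UnitAddCircle, ℂ) :=
  ∑ u : Fin d → Fin M, ((sgu M θ u : ℝ) : ℂ) • fourier (lamv B (vec M u))

/-- The kernel `|P_θ|²`. -/
noncomputable def KK (θ : Option (Fin d)) : C(UnitAddCircle, ℂ) := PP M B θ * star (PP M B θ)

lemma KK_apply (θ : Option (Fin d)) (x : UnitAddCircle) :
    KK M B θ x = ((‖PP M B θ x‖ ^ 2 : ℝ) : ℂ) := by
  unfold KK
  rw [ContinuousMap.mul_apply, ContinuousMap.star_apply]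
  rw [show star (PP M B θ x) = (starRingEnd ℂ) (PP M B θ x) from rfl, Complex.mul_conj,
    Complex.normSq_eq_norm_sq]

lemma star_fourier (n : ℤ) : star (fourier n : C(UnitAddCircle, ℂ)) = fourier (-n) := by
  ext x
  rw [ContinuousMap.star_apply, fourier_neg]
  rfl

lemma KK_expand (θ : Option (Fin d)) : KK M B θ =
    ∑ u : Fin d → Fin M, ∑ u' : Fin d → Fin M, ((sgu M θ u * sgu M θ u' : ℝ) : ℂ) •
      (fourier (lamv B (vec M u) - lamv B (vec M u')) : C(UnitAddCircle, ℂ)) := by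
  unfold KK PP
  rw [star_sum, sum_mul_sum]
  apply sum_congr rfl; intro u _
  apply sum_congr rfl; intro u' _
  rw [star_smul, star_fourier, smul_mul_smul_comm, ← fourier_add_eq]
  congr 1
  rw [show star ((sgu M θ u' : ℝ) : ℂ) = (starRingEnd ℂ) ((sgu M θ u' : ℝ) : ℂ) from rfl,
    Complex.conj_ofReal]
  push_cast
  rfl

lemma cf_KK (θ : Option (Fin d)) (r : ℤ) : cf r (KK M B θ) =
    ((∑ u : Fin d → Fin M, ∑ u' : Fin d → Fin M, (sgu M θ u * sgu M θ u') *
      (if r = lamv B (vec M u) - lamv B (vec M u') then 1 else 0) : ℝ) : ℂ) := by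
  rw [KK_expand, map_sum]
  push_cast
  apply sum_congr rfl; intro u _
  rw [map_sum]
  apply sum_congr rfl; intro u' _
  rw [map_smul, cf_fourier, smul_eq_mul]
  push_cast
  split_ifs <;> simp

/-- The one-dimensional count. -/
lemma inner_count (hM : 1 ≤ M) (s : ℝ) (hs : s * s = 1) (v : ℤ) (hv : |v| ≤ 1) :
    ∑ a : Fin M, ∑ b : Fin M, s ^ (a : ℕ) * s ^ (b : ℕ) *
      (if v = ((a : ℕ) : ℤ) - ((b : ℕ) : ℤ) then 1 else 0) =
      if v = 0 then (M : ℝ) else s * ((M : ℝ) - 1) := by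
  have hpow : ∀ n : ℕ, s ^ n * s ^ n = 1 := by
    intro n; rw [← mul_pow, hs, one_pow]
  rcases (by rw [abs_le] at hv; omega : v = 0 ∨ v = 1 ∨ v = -1) with h | h | h
  · subst h
    rw [if_pos rfl]
    have h1 : ∀ a : Fin M, ∑ b : Fin M, s ^ (a : ℕ) * s ^ (b : ℕ) *
      (if (0 : ℤ) = ((a : ℕ) : ℤ) - ((b : ℕ) : ℤ) then (1 : ℝ) else 0) = 1 := by
      intro a
      rw [sum_eq_single a]
      · rw [if_pos (by ring), mul_one, hpow]
      · intro b _ hb
        rw [if_neg, mul_zero]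
        intro h; apply hb; apply Fin.ext; omega
      · intro h; exact absurd (mem_univ _) h
    rw [sum_congr rfl (fun a _ => h1 a)]
    simp
  · subst h
    rw [if_neg (by norm_num)]
    obtain ⟨K, rfl⟩ : ∃ K, M = K + 1 := ⟨M - 1, by omega⟩
    rw [Fin.sum_univ_succ]
    have h0 : ∑ b : Fin (K + 1), s ^ ((0 : Fin (K + 1)) : ℕ) * s ^ (b : ℕ) *
      (if (1 : ℤ) = (((0 : Fin (K + 1)) : ℕ) : ℤ) - ((b : ℕ) : ℤ) then (1 : ℝ) else 0) = 0 := by
      apply sum_eq_zero
      intro b _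
      rw [if_neg, mul_zero]
      simp only [Fin.val_zero, Nat.cast_zero]
      omega
    have h1 : ∀ a : Fin K, ∑ b : Fin (K + 1), s ^ ((a.succ : Fin (K + 1)) : ℕ) * s ^ (b : ℕ) *
      (if (1 : ℤ) = (((a.succ : Fin (K + 1)) : ℕ) : ℤ) - ((b : ℕ) : ℤ) then (1 : ℝ) else 0)
        = s := by
      intro a
      rw [sum_eq_single (Fin.castSucc a)]
      · rw [if_pos, mul_one, Fin.val_succ, Fin.val_castSucc, pow_succ, mul_assoc, mul_comm s,
          ← mul_assoc, hpow, one_mul]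
        rw [Fin.val_succ, Fin.val_castSucc]; push_cast; ring
      · intro b _ hb
        rw [if_neg, mul_zero]
        intro h; apply hb; apply Fin.ext
        rw [Fin.val_succ] at h
        rw [Fin.val_castSucc]
        push_cast at h
        omega
      · intro h; exact absurd (mem_univ _) h
    rw [h0, sum_congr rfl (fun a _ => h1 a)]
    simp
    ring
  · subst h
    rw [if_neg (by norm_num)]
    obtain ⟨K, rfl⟩ : ∃ K, M = K + 1 := ⟨M - 1, by omega⟩
    rw [sum_comm, Fin.sum_univ_succ]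
    have h0 : ∑ a : Fin (K + 1), s ^ (a : ℕ) * s ^ ((0 : Fin (K + 1)) : ℕ) *
      (if (-1 : ℤ) = ((a : ℕ) : ℤ) - (((0 : Fin (K + 1)) : ℕ) : ℤ) then (1 : ℝ) else 0) = 0 := by
      apply sum_eq_zero
      intro b _
      rw [if_neg, mul_zero]
      simp only [Fin.val_zero, Nat.cast_zero]
      omega
    have h1 : ∀ b : Fin K, ∑ a : Fin (K + 1), s ^ (a : ℕ) * s ^ ((b.succ : Fin (K + 1)) : ℕ) *
      (if (-1 : ℤ) = ((a : ℕ) : ℤ) - (((b.succ : Fin (K + 1)) : ℕ) : ℤ) then (1 : ℝ) else 0)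
        = s := by
      intro b
      rw [sum_eq_single (Fin.castSucc b)]
      · rw [if_pos, mul_one, Fin.val_succ, Fin.val_castSucc, pow_succ, ← mul_assoc, hpow, one_mul]
        rw [Fin.val_succ, Fin.val_castSucc]; push_cast; ring
      · intro a _ ha
        rw [if_neg, mul_zero]
        intro h; apply ha; apply Fin.ext
        rw [Fin.val_succ] at h
        rw [Fin.val_castSucc]
        push_cast at h
        omega
      · intro h; exact absurd (mem_univ _) h
    rw [h0, sum_congr rfl (fun b _ => h1 b)]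
    simp
    ring

/-- The coefficients of the kernel at the frequencies with digits in `{-1, 0, 1}`. -/
lemma cf_KK_lamv (hM : 1 ≤ M) (hB : (M : ℤ) < B) (θ : Option (Fin d)) (v : Fin d → ℤ)
    (hv : ∀ j, |v j| ≤ 1) : cf (lamv B v) (KK M B θ) =
    ((∏ j, (if v j = 0 then (M : ℝ) else sgt θ j * ((M : ℝ) - 1)) : ℝ) : ℂ) := by
  rw [cf_KK]
  congr 1
  have h1 : ∀ u u' : Fin d → Fin M, (lamv B v = lamv B (vec M u) - lamv B (vec M u')) ↔
      ∀ j, v j = ((u j : ℕ) : ℤ) - ((u' j : ℕ) : ℤ) := by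
    intro u u'
    constructor
    · intro h
      rw [← lamv_sub] at h
      have h2 := lamv_inj B (by omega) v (vec M u - vec M u') (fun j => by
        simp only [Pi.sub_apply, vec]
        have a1 := abs_le.mp (hv j)
        have a2 := (u j).isLt
        have a3 := (u' j).isLt
        rw [abs_lt]
        constructor <;> omega) h
      intro j
      rw [h2]
      rfl
    · intro h
      rw [← lamv_sub]
      congr 1
      funext j
      rw [h j]
      rfl
  have h2 : ∀ u u' : Fin d → Fin M, (sgu M θ u * sgu M θ u') *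
      (if lamv B v = lamv B (vec M u) - lamv B (vec M u') then (1 : ℝ) else 0) =
      ∏ j, (sgt θ j ^ (u j : ℕ) * sgt θ j ^ (u' j : ℕ) *
        (if v j = ((u j : ℕ) : ℤ) - ((u' j : ℕ) : ℤ) then 1 else 0)) := by
    intro u u'
    rw [prod_mul_distrib, prod_mul_distrib]
    congr 1
    by_cases h : ∀ j, v j = ((u j : ℕ) : ℤ) - ((u' j : ℕ) : ℤ)
    · rw [if_pos ((h1 u u').mpr h)]
      rw [prod_congr rfl (fun j _ => if_pos (h j)), prod_const_one]
    · rw [if_neg (fun h' => h ((h1 u u').mp h'))]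
      push Not at h
      obtain ⟨j, hj⟩ := h
      rw [prod_eq_zero (mem_univ j)]
      rw [if_neg hj]
  simp_rw [h2]
  have h3 : ∀ u : Fin d → Fin M, ∑ u' : Fin d → Fin M,
      ∏ j, (sgt θ j ^ (u j : ℕ) * sgt θ j ^ (u' j : ℕ) *
        (if v j = ((u j : ℕ) : ℤ) - ((u' j : ℕ) : ℤ) then (1 : ℝ) else 0)) =
      ∏ j, ∑ b : Fin M, (sgt θ j ^ (u j : ℕ) * sgt θ j ^ (b : ℕ) *
        (if v j = ((u j : ℕ) : ℤ) - ((b : ℕ) : ℤ) then (1 : ℝ) else 0)) := by
    intro u
    rw [prod_univ_sum, Fintype.piFinset_univ]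
  simp_rw [h3]
  have h4 : ∑ u : Fin d → Fin M, ∏ j, ∑ b : Fin M, (sgt θ j ^ (u j : ℕ) * sgt θ j ^ (b : ℕ) *
        (if v j = ((u j : ℕ) : ℤ) - ((b : ℕ) : ℤ) then (1 : ℝ) else 0)) =
      ∏ j, ∑ a : Fin M, ∑ b : Fin M, (sgt θ j ^ (a : ℕ) * sgt θ j ^ (b : ℕ) *
        (if v j = ((a : ℕ) : ℤ) - ((b : ℕ) : ℤ) then (1 : ℝ) else 0)) := by
    rw [prod_univ_sum, Fintype.piFinset_univ]
  rw [h4]
  apply prod_congr rfl
  intro j _
  exact inner_count M hM (sgt θ j) (sgt_sq θ j) (v j) (hv j)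

/-- The coefficients outside a finite window vanish. -/
lemma cf_KK_large (Bn : ℕ) (θ : Option (Fin d)) (r : ℤ)
    (hr : ((∑ j : Fin d, M * Bn ^ (j : ℕ) : ℕ) : ℤ) < |r|) : cf r (KK M (Bn : ℤ) θ) = 0 := by
  rw [cf_KK]
  rw [Complex.ofReal_eq_zero]
  apply sum_eq_zero; intro u _
  apply sum_eq_zero; intro u' _
  rw [if_neg, mul_zero]
  rintro rfl
  rw [← lamv_sub] at hr
  have := abs_lamv_le Bn M (vec M u - vec M u') (fun j => by
    simp only [Pi.sub_apply, vec]
    have a2 := (u j).isLt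
    have a3 := (u' j).isLt
    rw [abs_le]
    constructor <;> omega)
  exact absurd hr (not_lt.mpr this)

end kernel

end Pool.Agent.Lib.MP_ceba03_an
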